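import Pool.Agent.H82.HF.Amp

/-!
# THEOREM W (MP_c15324_an), module Unf: the estimates of Dam / Amp with explicit constants

Copies of `dam1`, `dam2`, `amp_hr`, `osc` of H82/HF; the constants `kA`, `kB`, `kM`, `kO` depend on `s`, `K`, `c`, `κ₀`, `M`, `MF`,
`n`, `Σ len k_j` only, not on `S`, `F`, `c_j`.
-/

set_option autoImplicit false

open MeasureTheory Set Filter Topology Pool.Agent.H25.Kin Pool.Agent.H48.PL Pool.Agent.H48.PD
open Pool.Agent.H82.BK Pool.Agent.H82.CM Pool.Agent.H48.PR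
open Pool.Agent.H82.HF (SgH Dm Am fa GG HR Fam dam0 hr_mono hr_cont len_int)

namespace Pool.Agent.H82.HW

variable {d : ℕ} {s α K c κ₀ : ℝ} {S : Vec d → Vec d → ℝ}

private lemma Unf_cont1 (hs : 0 < s) (hS : SgH s α K c κ₀ S) (k v : Vec d) :
    Continuous fun r : ℝ => S ((2 * Real.pi * r) • k) v := by
  rw [continuous_iff_continuousAt]
  intro r
  have hs2 : 0 < 2 * s := by linarith
  have h1 : Continuous fun r' : ℝ => K * (1 + nsq v) *
      len ((2 * Real.pi * r') • k - (2 * Real.pi * r) • k) ^ (2 * s) := by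
    refine continuous_const.mul ?_
    exact Continuous.rpow_const (continuous_len.comp (by fun_prop)) fun _ => Or.inr hs2.le
  have h2 : Tendsto (fun r' : ℝ => K * (1 + nsq v) *
      len ((2 * Real.pi * r') • k - (2 * Real.pi * r) • k) ^ (2 * s)) (𝓝 r) (𝓝 0) := by
    have h3 := h1.tendsto r
    rw [sub_self, len_zero, Real.zero_rpow hs2.ne', mul_zero] at h3
    exact h3
  unfold ContinuousAt
  rw [tendsto_iff_dist_tendsto_zero]
  refine squeeze_zero (fun _ => dist_nonneg) (fun r' => ?_) h2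
  rw [Real.dist_eq]
  exact hS.kap _ _ _

private lemma Unf_low (hs : 0 < s) (hS : SgH s α K c κ₀ S) {k : Vec d} (hk : 1 ≤ len k) {δ : ℝ}
    (hδ : 0 < δ) (hδ1 : δ ≤ 1) {t : ℝ} (ht : 0 ≤ t) (v : Vec d) :
    c / (1 + 2 * s) * (δ * t ^ (1 + 2 * s)) -
      c / (1 + 2 * s) * (κ₀ / (2 * Real.pi)) ^ (1 + 2 * s) ≤ Dm S δ k t v := by
  have hπ := Real.pi_pos
  have hr₀ : 0 ≤ κ₀ / (2 * Real.pi) := div_nonneg hS.k0 (by positivity)
  have hκ : 2 * Real.pi * (κ₀ / (2 * Real.pi)) = κ₀ := by field_simp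
  generalize κ₀ / (2 * Real.pi) = r₀ at hr₀ hκ ⊢
  have hc₁ : 0 < c / (1 + 2 * s) := div_pos hS.c0 (by linarith)
  have hg := Unf_cont1 hs hS k v
  rcases le_total t r₀ with h | h
  · have h1 : t ^ (1 + 2 * s) ≤ r₀ ^ (1 + 2 * s) := Real.rpow_le_rpow ht h (by linarith)
    have h2 := dam0 hS hδ.le ht k v
    have h3 : δ * t ^ (1 + 2 * s) ≤ t ^ (1 + 2 * s) :=
      mul_le_of_le_one_left (Real.rpow_nonneg ht _) hδ1
    have h4 := mul_le_mul_of_nonneg_left (h3.trans h1) hc₁.le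
    linarith
  · have e1 : ∫ r in (0 : ℝ)..t, S ((2 * Real.pi * r) • k) v =
        (∫ r in (0 : ℝ)..r₀, S ((2 * Real.pi * r) • k) v) +
          ∫ r in r₀..t, S ((2 * Real.pi * r) • k) v :=
      (intervalIntegral.integral_add_adjacent_intervals (hg.intervalIntegrable _ _)
        (hg.intervalIntegrable _ _)).symm
    have e2 : 0 ≤ ∫ r in (0 : ℝ)..r₀, S ((2 * Real.pi * r) • k) v :=
      intervalIntegral.integral_nonneg hr₀ fun _ _ => hS.nn _ _
    have hc : Continuous fun r : ℝ => c * r ^ (2 * s) :=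
      continuous_const.mul (Real.continuous_rpow_const (by linarith))
    have e3 : ∫ r in r₀..t, c * r ^ (2 * s) ≤ ∫ r in r₀..t, S ((2 * Real.pi * r) • k) v := by
      refine intervalIntegral.integral_mono_on h (hc.intervalIntegrable _ _)
        (hg.intervalIntegrable _ _) fun r hr => ?_
      have hr0 : 0 ≤ r := hr₀.trans hr.1
      have a1 : len ((2 * Real.pi * r) • k) = 2 * Real.pi * r * len k :=
        len_smul (by positivity) k
      have a2 : κ₀ ≤ len ((2 * Real.pi * r) • k) := by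
        rw [a1, ← hκ]
        have a3 : 2 * Real.pi * r₀ ≤ 2 * Real.pi * r :=
          mul_le_mul_of_nonneg_left hr.1 (by positivity)
        exact a3.trans (le_mul_of_one_le_right (by positivity) hk)
      refine le_trans ?_ (hS.low _ _ a2)
      refine mul_le_mul_of_nonneg_left ?_ hS.c0.le
      rw [a1]
      refine Real.rpow_le_rpow hr0 ?_ (by linarith)
      have a4 : (1 : ℝ) ≤ 2 * Real.pi := by linarith [Real.pi_gt_three]
      have a5 : r ≤ 2 * Real.pi * r := le_mul_of_one_le_left hr0 a4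
      exact a5.trans (le_mul_of_one_le_right (by positivity) hk)
    have e4 : ∫ r in r₀..t, c * r ^ (2 * s) =
        c / (1 + 2 * s) * (t ^ (1 + 2 * s) - r₀ ^ (1 + 2 * s)) := by
      rw [intervalIntegral.integral_const_mul, integral_rpow (Or.inl (by linarith)),
        add_comm (2 * s) 1]
      ring
    rw [e4] at e3
    have h5 : δ * (c / (1 + 2 * s) * (t ^ (1 + 2 * s) - r₀ ^ (1 + 2 * s))) ≤ Dm S δ k t v := by
      unfold Dm
      rw [e1]
      refine mul_le_mul_of_nonneg_left ?_ hδ.le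
      linarith
    refine le_trans ?_ h5
    have h6 : δ * r₀ ^ (1 + 2 * s) ≤ r₀ ^ (1 + 2 * s) :=
      mul_le_of_le_one_left (Real.rpow_nonneg hr₀ _) hδ1
    have h7 := mul_le_mul_of_nonneg_left h6 hc₁.le
    have e5 : δ * (c / (1 + 2 * s) * (t ^ (1 + 2 * s) - r₀ ^ (1 + 2 * s))) =
        c / (1 + 2 * s) * (δ * t ^ (1 + 2 * s)) - c / (1 + 2 * s) * (δ * r₀ ^ (1 + 2 * s)) := by
      ring
    rw [e5]
    linarith

private lemma Unf_real {c₁ X E D : ℝ} (hc : 0 < c₁) (hX : 0 ≤ X) (hD : c₁ * X - E ≤ D) :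
    Real.exp (-D) * (1 + X) ^ 2 ≤ Real.exp E * (1 + 2 / c₁) ^ 2 := by
  have h1 : 1 + X ≤ (1 + 2 / c₁) * Real.exp (c₁ * X / 2) := by
    have a1 := Real.add_one_le_exp (c₁ * X / 2)
    have a2 : 0 < 2 / c₁ := by positivity
    have a3 : (1 + 2 / c₁) * (c₁ * X / 2 + 1) ≤ (1 + 2 / c₁) * Real.exp (c₁ * X / 2) :=
      mul_le_mul_of_nonneg_left a1 (by linarith)
    have a4 : (1 + 2 / c₁) * (c₁ * X / 2 + 1) = c₁ * X / 2 + 1 + X + 2 / c₁ := by
      field_simp
      ring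
    have a5 : 0 ≤ c₁ * X / 2 := by positivity
    linarith
  have h2 : (1 + X) ^ 2 ≤ ((1 + 2 / c₁) * Real.exp (c₁ * X / 2)) ^ 2 :=
    pow_le_pow_left₀ (by linarith) h1 2
  have h3 : ((1 + 2 / c₁) * Real.exp (c₁ * X / 2)) ^ 2 =
      (1 + 2 / c₁) ^ 2 * Real.exp (c₁ * X) := by
    rw [mul_pow, ← Real.exp_nat_mul]
    congr 2
    push_cast
    ring
  have h4 : Real.exp (-D) ≤ Real.exp (E - c₁ * X) := Real.exp_le_exp.2 (by linarith)
  calc Real.exp (-D) * (1 + X) ^ 2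
      ≤ Real.exp (E - c₁ * X) * ((1 + 2 / c₁) ^ 2 * Real.exp (c₁ * X)) := by
        rw [← h3]
        exact mul_le_mul h4 h2 (by positivity) (Real.exp_pos _).le
    _ = (Real.exp (E - c₁ * X) * Real.exp (c₁ * X)) * (1 + 2 / c₁) ^ 2 := by ring
    _ = Real.exp E * (1 + 2 / c₁) ^ 2 := by
        rw [← Real.exp_add]
        congr 2
        ring

/-- the constant of the damping estimate -/
noncomputable def kA (s c κ₀ : ℝ) : ℝ :=
  Real.exp (c / (1 + 2 * s) * (κ₀ / (2 * Real.pi)) ^ (1 + 2 * s)) *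
    (1 + 2 / (c / (1 + 2 * s))) ^ 2

theorem dam1 (hs : 0 < s) (hS : SgH s α K c κ₀ S) : 1 ≤ kA s c κ₀ ∧ ∀ k : Vec d, 1 ≤ len k →
    ∀ δ : ℝ, 0 < δ → δ ≤ 1 → ∀ t : ℝ, 0 ≤ t → ∀ v : Vec d,
    Real.exp (-Dm S δ k t v) * (1 + δ * t ^ (1 + 2 * s)) ^ 2 ≤ kA s c κ₀ := by
  have hπ := Real.pi_pos
  have hc₁ : 0 < c / (1 + 2 * s) := div_pos hS.c0 (by linarith)
  have hr₀ : 0 ≤ κ₀ / (2 * Real.pi) := div_nonneg hS.k0 (by positivity)
  refine ⟨?_, ?_⟩
  · have h1 : 1 ≤ Real.exp (c / (1 + 2 * s) * (κ₀ / (2 * Real.pi)) ^ (1 + 2 * s)) :=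
      Real.one_le_exp (mul_nonneg hc₁.le (Real.rpow_nonneg hr₀ _))
    have h2 : (1 : ℝ) ≤ (1 + 2 / (c / (1 + 2 * s))) ^ 2 := by
      refine one_le_pow₀ ?_
      have : 0 < 2 / (c / (1 + 2 * s)) := div_pos two_pos hc₁
      linarith
    exact one_le_mul_of_one_le_of_one_le h1 h2
  · intro k hk δ hδ hδ1 t ht v
    exact Unf_real hc₁ (mul_nonneg hδ.le (Real.rpow_nonneg ht _)) (Unf_low hs hS hk hδ hδ1 ht v)

private lemma Unf_exp (a b : ℝ) :
    |Real.exp (-a) - Real.exp (-b)| ≤ |a - b| * (Real.exp (-a) + Real.exp (-b)) := by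
  have key : ∀ a b : ℝ, a ≤ b →
      |Real.exp (-a) - Real.exp (-b)| ≤ |a - b| * (Real.exp (-a) + Real.exp (-b)) := by
    intro a b hab
    have h1 : Real.exp (-b) ≤ Real.exp (-a) := Real.exp_le_exp.2 (by linarith)
    have h2 : Real.exp (-b) = Real.exp (-a) * Real.exp (-(b - a)) := by
      rw [← Real.exp_add]
      congr 1
      ring
    have h3 := Real.add_one_le_exp (-(b - a))
    have h4 : 0 < Real.exp (-a) := Real.exp_pos _
    have h5 : 0 < Real.exp (-b) := Real.exp_pos _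
    have h6 : Real.exp (-a) * (-(b - a) + 1) ≤ Real.exp (-b) := by
      rw [h2]
      exact mul_le_mul_of_nonneg_left h3 h4.le
    have h7 : 0 ≤ (b - a) * Real.exp (-b) := mul_nonneg (by linarith) h5.le
    rw [abs_of_nonneg (by linarith), abs_sub_comm, abs_of_nonneg (by linarith)]
    linarith
  rcases le_total a b with h | h
  · exact key a b h
  · have h1 := key b a h
    rw [abs_sub_comm, abs_sub_comm a b, add_comm (Real.exp (-a))]
    exact h1

private lemma Unf_diff (hs : 0 < s) (hS : SgH s α K c κ₀ S) (R : ℝ) {k : Vec d}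
    (hkR : len k ≤ R) {δ : ℝ} (hδ : 0 < δ) {t : ℝ} (ht : 0 ≤ t) (v h : Vec d) :
    |Dm S δ k t (v + h) - Dm S δ k t v| ≤ K * (2 * Real.pi * |R|) ^ (2 * s) *
      (min 1 (len h) ^ α * (1 + nsq v + nsq (v + h))) * (δ * t ^ (1 + 2 * s)) := by
  have hπ := Real.pi_pos
  have hs2 : 0 < 2 * s := by linarith
  have g1 := Unf_cont1 hs hS k (v + h)
  have g2 := Unf_cont1 hs hS k v
  have hm : 0 ≤ min 1 (len h) ^ α := Real.rpow_nonneg (le_min zero_le_one (len_nonneg _)) _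
  have hw : 0 ≤ 1 + nsq v + nsq (v + h) := by
    have a1 : 0 ≤ nsq v := by unfold nsq; positivity
    have a2 : 0 ≤ nsq (v + h) := by unfold nsq; positivity
    linarith
  have e1 : Dm S δ k t (v + h) - Dm S δ k t v =
      δ * ∫ r in (0 : ℝ)..t, (S ((2 * Real.pi * r) • k) (v + h) -
        S ((2 * Real.pi * r) • k) v) := by
    unfold Dm
    rw [intervalIntegral.integral_sub (g1.intervalIntegrable _ _) (g2.intervalIntegrable _ _)]
    ring
  have h1 : ‖∫ r in (0 : ℝ)..t, (S ((2 * Real.pi * r) • k) (v + h) -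
      S ((2 * Real.pi * r) • k) v)‖ ≤ (K * min 1 (len h) ^ α * (1 + nsq v + nsq (v + h)) *
        (2 * Real.pi * |R| * t) ^ (2 * s)) * |t - 0| := by
    refine intervalIntegral.norm_integral_le_of_norm_le_const fun r hr => ?_
    rw [uIoc_of_le ht] at hr
    rw [Real.norm_eq_abs]
    refine (hS.hol _ _ _).trans ?_
    refine mul_le_mul_of_nonneg_left ?_ (mul_nonneg (mul_nonneg hS.K0 hm) hw)
    have hr0 : 0 ≤ r := hr.1.le
    rw [len_smul (by positivity : 0 ≤ 2 * Real.pi * r)]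
    refine Real.rpow_le_rpow (mul_nonneg (by positivity) (len_nonneg _)) ?_ hs2.le
    calc 2 * Real.pi * r * len k ≤ 2 * Real.pi * t * |R| :=
          mul_le_mul (mul_le_mul_of_nonneg_left hr.2 (by positivity))
            (hkR.trans (le_abs_self R)) (len_nonneg _) (by positivity)
      _ = 2 * Real.pi * |R| * t := by ring
  have e2 : t ^ (1 + 2 * s) = t * t ^ (2 * s) :=
    Real.rpow_one_add' ht (by linarith)
  rw [e1, abs_mul, abs_of_pos hδ]
  rw [Real.norm_eq_abs, sub_zero, abs_of_nonneg ht,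
    Real.mul_rpow (by positivity : 0 ≤ 2 * Real.pi * |R|) ht] at h1
  refine (mul_le_mul_of_nonneg_left h1 hδ.le).trans (le_of_eq ?_)
  rw [e2]
  ring

private lemma Unf_fin {A X a b m K₃ : ℝ} (hA : 0 ≤ A) (hm : 0 ≤ m) (hX : 0 ≤ X)
    (ha : Real.exp (-a) * (1 + X) ^ 2 ≤ K₃) (hb : Real.exp (-b) * (1 + X) ^ 2 ≤ K₃)
    (hd : |a - b| ≤ A * m * X) :
    |Real.exp (-a) - Real.exp (-b)| ≤ 2 * K₃ * A * m := by
  have hX2 : X ≤ (1 + X) ^ 2 := by nlinarith
  have h1 : X * Real.exp (-a) ≤ K₃ := by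
    refine le_trans ?_ ha
    rw [mul_comm]
    exact mul_le_mul_of_nonneg_left hX2 (Real.exp_pos _).le
  have h2 : X * Real.exp (-b) ≤ K₃ := by
    refine le_trans ?_ hb
    rw [mul_comm]
    exact mul_le_mul_of_nonneg_left hX2 (Real.exp_pos _).le
  have hAm : 0 ≤ A * m := mul_nonneg hA hm
  calc |Real.exp (-a) - Real.exp (-b)|
      ≤ |a - b| * (Real.exp (-a) + Real.exp (-b)) := Unf_exp a b
    _ ≤ A * m * X * (Real.exp (-a) + Real.exp (-b)) :=
        mul_le_mul_of_nonneg_right hd (add_pos (Real.exp_pos _) (Real.exp_pos _)).le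
    _ = A * m * (X * Real.exp (-a) + X * Real.exp (-b)) := by ring
    _ ≤ A * m * (K₃ + K₃) := mul_le_mul_of_nonneg_left (add_le_add h1 h2) hAm
    _ = 2 * K₃ * A * m := by ring

/-- the constant of the increments of the damping factor -/
noncomputable def kB (s K c κ₀ R : ℝ) : ℝ := 2 * kA s c κ₀ * (K * (2 * Real.pi * |R|) ^ (2 * s))

theorem dam2 (hs : 0 < s) (hS : SgH s α K c κ₀ S) (R : ℝ) : 0 ≤ kB s K c κ₀ R ∧ ∀ k : Vec d,
    1 ≤ len k → len k ≤ R → ∀ δ : ℝ, 0 < δ → δ ≤ 1 → ∀ t : ℝ, 0 ≤ t → ∀ v h : Vec d,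
    |Real.exp (-Dm S δ k t (v + h)) - Real.exp (-Dm S δ k t v)| ≤
      kB s K c κ₀ R * min 1 (len h) ^ α * (1 + nsq v + nsq (v + h)) := by
  obtain ⟨hK₃, h3⟩ := dam1 hs hS
  have hπ := Real.pi_pos
  have hA : 0 ≤ K * (2 * Real.pi * |R|) ^ (2 * s) :=
    mul_nonneg hS.K0 (Real.rpow_nonneg (by positivity) _)
  unfold kB
  refine ⟨mul_nonneg (by linarith) hA, ?_⟩
  intro k hk hkR δ hδ hδ1 t ht v h
  have hm : 0 ≤ min 1 (len h) ^ α := Real.rpow_nonneg (le_min zero_le_one (len_nonneg _)) _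
  have hw : 0 ≤ 1 + nsq v + nsq (v + h) := by
    have a1 : 0 ≤ nsq v := by unfold nsq; positivity
    have a2 : 0 ≤ nsq (v + h) := by unfold nsq; positivity
    linarith
  have h4 := Unf_fin hA (mul_nonneg hm hw) (mul_nonneg hδ.le (Real.rpow_nonneg ht (1 + 2 * s)))
    (h3 k hk δ hδ hδ1 t ht (v + h)) (h3 k hk δ hδ hδ1 t ht v)
    (Unf_diff hs hS R hkR hδ ht v h)
  rw [mul_assoc (2 * kA s c κ₀ * (K * (2 * Real.pi * |R|) ^ (2 * s)))]
  exact h4

private lemma Unf_wp {q q' : ℕ} (hq : q ≤ q') (v : Vec d) : Wp q' v ≤ Wp q v := by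
  have h := sq_nonneg' v
  unfold Wp
  exact inv_anti₀ (by positivity) (pow_le_pow_right₀ (by linarith) hq)

private lemma Unf_wp2 (q : ℕ) (v : Vec d) : Wp (q + 2) v * (1 + nsq v) ≤ Wp q v := by
  have h := sq_nonneg' v
  have h1 : Wp (q + 2) v * (1 + nsq v) = Wp (q + 1) v := by
    unfold Wp
    have : 0 < 1 + nsq v := by linarith
    field_simp
    ring
  rw [h1]
  exact Unf_wp (Nat.le_succ q) v

private lemma Unf_min0 (h : Vec d) (α : ℝ) : 0 ≤ min 1 (len h) ^ α :=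
  Real.rpow_nonneg (le_min zero_le_one (len_nonneg h)) α

private lemma Unf_hol2 {q : ℕ} {M : ℝ} {a : Vec d → ℝ} (h : HR α q M a) (v z : Vec d) :
    |a (v + z) - a v| ≤ 2 * M * min 1 (len z) ^ α := by
  refine (h.hol v z).trans ?_
  have h1 := Unf_min0 z α
  have h0 := h.nn
  have h2 := Wp_le_one q v
  have h3 := Wp_le_one q (v + z)
  calc M * min 1 (len z) ^ α * (Wp q v + Wp q (v + z)) ≤ M * min 1 (len z) ^ α * 2 :=
        mul_le_mul_of_nonneg_left (by linarith) (by positivity)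
    _ = _ := by ring

private lemma Unf_exp1 (hS : SgH s α K c κ₀ S) {δ t : ℝ} (hδ : 0 ≤ δ) (ht : 0 ≤ t) (k v : Vec d) :
    Real.exp (-Dm S δ k t v) ≤ 1 :=
  Real.exp_le_one_iff.2 (by linarith [dam0 hS hδ ht k v])

private lemma Unf_le1 (hS : SgH s α K c κ₀ S) {δ t : ℝ} (hδ : 0 ≤ δ) (ht : 0 ≤ t) (k v : Vec d)
    (g : Vec d → ℝ) : |Am S δ g k t v| ≤ |g v| := by
  unfold Am
  rw [abs_mul, abs_of_pos (Real.exp_pos _)]
  exact mul_le_of_le_one_right (abs_nonneg _) (Unf_exp1 hS hδ ht k v)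

/-- the constant of the amplitudes -/
noncomputable def kM (s K c κ₀ M R : ℝ) : ℝ := |M| * (1 + 4 * kB s K c κ₀ R)

theorem amp_hr (hs : 0 < s) (hα : 0 < α) (hS : SgH s α K c κ₀ S) {q : ℕ} {n : ℕ} {M : ℝ}
    {a : Fin n → ℝ} {cc : Fin n → Vec d → ℝ} {k : Fin n → Vec d} (hF : Fam α (q + 2) M a cc k) :
    0 ≤ kM s K c κ₀ M (∑ j, len (k j)) ∧ ∀ δ : ℝ, 0 < δ → δ ≤ 1 → ∀ t : ℝ, 0 ≤ t → ∀ j,
      HR α q (kM s K c κ₀ M (∑ j, len (k j))) (Am S δ (cc j) (k j) t) := by
  obtain ⟨hK₄, hd2⟩ := dam2 hs hS (∑ j, len (k j))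
  unfold kM
  generalize kB s K c κ₀ (∑ j, len (k j)) = K₄ at hK₄ hd2
  refine ⟨by positivity, fun δ hδ hδ1 t ht j => ?_⟩
  have hM0 : 0 ≤ M := (hF.hc j).nn
  have hMM : M ≤ |M| * (1 + 4 * K₄) := by
    rw [abs_of_nonneg hM0]
    exact le_mul_of_one_le_right hM0 (by linarith)
  have hj1 : 1 ≤ len (k j) := len_int (hF.hk j) (hF.hk0 j)
  have hjR : len (k j) ≤ ∑ j, len (k j) :=
    Finset.single_le_sum (fun i _ => len_nonneg (k i)) (Finset.mem_univ j)
  have hb : ∀ v, |Am S δ (cc j) (k j) t v| ≤ M * Wp q v := fun v =>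
    (Unf_le1 hS hδ.le ht (k j) v (cc j)).trans (((hF.hc j).le v).trans
      (mul_le_mul_of_nonneg_left (Unf_wp (by omega) v) hM0))
  refine ⟨by positivity, fun v => (hb v).trans
    (mul_le_mul_of_nonneg_right hMM (Wp_pos q v).le), fun v h => ?_⟩
  have w1 := Wp_pos q v
  have w2 := Wp_pos q (v + h)
  rcases le_or_gt (len h) 1 with hh | hh
  · have hm0 := Unf_min0 h α
    generalize hmm : min 1 (len h) ^ α = m at hm0
    have e : Am S δ (cc j) (k j) t (v + h) - Am S δ (cc j) (k j) t v =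
        (cc j (v + h) - cc j v) * Real.exp (-Dm S δ (k j) t (v + h)) +
          cc j v * (Real.exp (-Dm S δ (k j) t (v + h)) - Real.exp (-Dm S δ (k j) t v)) := by
      unfold Am; ring
    have b1 : |(cc j (v + h) - cc j v) * Real.exp (-Dm S δ (k j) t (v + h))| ≤
        M * m * (Wp q v + Wp q (v + h)) := by
      rw [abs_mul, abs_of_pos (Real.exp_pos _)]
      refine (mul_le_of_le_one_right (abs_nonneg _) (Unf_exp1 hS hδ.le ht (k j) (v + h))).trans ?_
      have := (hF.hc j).hol v h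
      rw [hmm] at this
      refine this.trans (mul_le_mul_of_nonneg_left ?_ (by positivity))
      exact add_le_add (Unf_wp (by omega) v) (Unf_wp (by omega) (v + h))
    have b2 : |cc j v * (Real.exp (-Dm S δ (k j) t (v + h)) - Real.exp (-Dm S δ (k j) t v))| ≤
        M * (4 * K₄) * m * Wp q v := by
      rw [abs_mul]
      have h1 := hd2 (k j) hj1 hjR δ hδ hδ1 t ht v h
      rw [hmm] at h1
      have h2 := (hF.hc j).le v
      have n1 := sq_nonneg' v
      have n2 : nsq (v + h) ≤ 2 * nsq v + 2 := by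
        have h3 := nsq_par v h
        have h4 := sq_nonneg' (v - h)
        have h5 : nsq h ≤ 1 := by
          rw [← len_sq]
          exact pow_le_one₀ (len_nonneg h) hh
        linarith
      have h6 : K₄ * m * (1 + nsq v + nsq (v + h)) ≤ K₄ * m * (4 * (1 + nsq v)) :=
        mul_le_mul_of_nonneg_left (by linarith) (by positivity)
      have w3 := Wp_pos (q + 2) v
      calc |cc j v| * |Real.exp (-Dm S δ (k j) t (v + h)) - Real.exp (-Dm S δ (k j) t v)| ≤
            (M * Wp (q + 2) v) * (K₄ * m * (4 * (1 + nsq v))) :=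
            mul_le_mul h2 (h1.trans h6) (abs_nonneg _) (by positivity)
        _ = M * (4 * K₄) * m * (Wp (q + 2) v * (1 + nsq v)) := by ring
        _ ≤ M * (4 * K₄) * m * Wp q v :=
            mul_le_mul_of_nonneg_left (Unf_wp2 q v) (by positivity)
    rw [e, abs_of_nonneg hM0]
    refine (abs_add_le _ _).trans ((add_le_add b1 b2).trans ?_)
    have h7 : 0 ≤ M * (4 * K₄) * m * Wp q (v + h) := by positivity
    calc M * m * (Wp q v + Wp q (v + h)) + M * (4 * K₄) * m * Wp q v ≤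
          M * m * (Wp q v + Wp q (v + h)) + M * (4 * K₄) * m * Wp q v +
            M * (4 * K₄) * m * Wp q (v + h) := by linarith
      _ = _ := by ring
  · rw [min_eq_left hh.le, Real.one_rpow, mul_one]
    have h1 : |Am S δ (cc j) (k j) t (v + h) - Am S δ (cc j) (k j) t v| ≤
        M * (Wp q v + Wp q (v + h)) := by
      refine (abs_sub _ _).trans ?_
      linarith [hb v, hb (v + h)]
    exact h1.trans (mul_le_mul_of_nonneg_right hMM (by positivity))

private lemma Unf_dot (u v : Vec d) : |dot u v| ≤ len u * len v := by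
  have hu := len_nonneg u
  have hv := len_nonneg v
  refine abs_le_of_sq_le_sq ?_ (by positivity)
  rw [mul_pow, len_sq, len_sq]
  exact dot_sq_le u v

private lemma Unf_cos (x y z : ℝ) (h : |x - y| ≤ z) :
    |Real.cos x - Real.cos y| ≤ 2 * min 1 z := by
  have h1 : |Real.cos x - Real.cos y| ≤ |x - y| := Real.abs_cos_sub_cos_le x y
  have h2 : |Real.cos x - Real.cos y| ≤ 2 := by
    refine (abs_sub _ _).trans ?_
    linarith [Real.abs_cos_le_one x, Real.abs_cos_le_one y]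
  have h0 : 0 ≤ z := (abs_nonneg _).trans h
  rcases le_total 1 z with h3 | h3
  · rw [min_eq_left h3]; linarith
  · rw [min_eq_right h3]; linarith

/-- the constant of the oscillation -/
noncomputable def kO (s K c κ₀ M MF : ℝ) (n : ℕ) (R : ℝ) : ℝ := 2 * MF + 2 * (n * kM s K c κ₀ M R)

theorem osc (hs : 0 < s) (hα : 0 < α) (hS : SgH s α K c κ₀ S) (q n : ℕ) (M MF : ℝ)
    (F : Vec d → ℝ) (a : Fin n → ℝ) (cc : Fin n → Vec d → ℝ)
      (k : Fin n → Vec d) (hF : HR α (q + 2) MF F) (hFam : Fam α (q + 2) M a cc k) :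
    0 ≤ kO s K c κ₀ M MF n (∑ j, len (k j)) ∧
    ∀ δ : ℝ, 0 < δ → δ ≤ 1 → ∀ t : ℝ, 0 ≤ t → ∀ (φ : Fin n → ℝ) (x v : Vec d),
      |fa S δ F cc k φ t x v| ≤ kO s K c κ₀ M MF n (∑ j, len (k j)) * Wp q v ∧
      |fa S δ F cc k φ t x v - F v| ≤
        kA s c κ₀ * (∑ j, a j) / (1 + δ * t ^ (1 + 2 * s)) * Wp q v ∧
      ∀ h : Vec d, |fa S δ F cc k φ t x (v + h) - fa S δ F cc k φ t x v| ≤
        kO s K c κ₀ M MF n (∑ j, len (k j)) * min 1 (len h) ^ α +
          ∑ j, (2 * kA s c κ₀ * a j * ((1 + δ * t ^ (1 + 2 * s)) ^ 2)⁻¹ * Wp (q + 2) v) *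
            min 1 ((2 * Real.pi * t * len (k j)) * len h) := by
  obtain ⟨hK₃, hd1⟩ := dam1 hs hS
  obtain ⟨hM₁, hAm⟩ := amp_hr hs hα hS hFam
  unfold kO
  generalize kM s K c κ₀ M (∑ j, len (k j)) = M₁ at hM₁ hAm
  generalize kA s c κ₀ = K₃ at hK₃ hd1
  have hMF := hF.nn
  have hF' : HR α q MF F := hr_mono (by omega) hF
  refine ⟨by positivity, fun δ hδ hδ1 t ht φ x v => ?_⟩
  have hX : 0 ≤ δ * t ^ (1 + 2 * s) := mul_nonneg hδ.le (Real.rpow_nonneg ht _)
  have ha0 : ∀ j, 0 ≤ a j := by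
    intro j
    have h1 := (abs_nonneg _).trans (hFam.ha j 0)
    exact nonneg_of_mul_nonneg_left h1 (Wp_pos (q + 2) (0 : Vec d))
  have hHR : ∀ j, HR α q M₁ (Am S δ (cc j) (k j) t) := hAm δ hδ hδ1 t ht
  have hamp : ∀ j, |Am S δ (cc j) (k j) t v| ≤
      K₃ * a j * ((1 + δ * t ^ (1 + 2 * s)) ^ 2)⁻¹ * Wp (q + 2) v := by
    intro j
    have h1 := hd1 (k j) (len_int (hFam.hk j) (hFam.hk0 j)) δ hδ hδ1 t ht v
    have hpos : 0 < (1 + δ * t ^ (1 + 2 * s)) ^ 2 := by positivity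
    have h2 : Real.exp (-Dm S δ (k j) t v) ≤ K₃ * ((1 + δ * t ^ (1 + 2 * s)) ^ 2)⁻¹ := by
      rw [← div_eq_mul_inv, le_div_iff₀ hpos]
      exact h1
    unfold Am
    rw [abs_mul, abs_of_pos (Real.exp_pos _)]
    calc |cc j v| * Real.exp (-Dm S δ (k j) t v) ≤ (a j * Wp (q + 2) v) *
          (K₃ * ((1 + δ * t ^ (1 + 2 * s)) ^ 2)⁻¹) :=
          mul_le_mul (hFam.ha j v) h2 (Real.exp_pos _).le
            (mul_nonneg (ha0 j) (Wp_pos _ v).le)
      _ = _ := by ring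
  have hfa : ∀ u, fa S δ F cc k φ t x u = F u + ∑ j, Am S δ (cc j) (k j) t u *
      Real.cos (2 * Real.pi * dot (k j) x + φ j - dot ((2 * Real.pi * t) • k j) u) :=
    fun u => rfl
  have hcard : ∑ _j : Fin n, M₁ = n * M₁ := by simp
  refine ⟨?_, ?_, fun h => ?_⟩
  · have h1 : |∑ j, Am S δ (cc j) (k j) t v *
        Real.cos (2 * Real.pi * dot (k j) x + φ j - dot ((2 * Real.pi * t) • k j) v)| ≤
        (n * M₁) * Wp q v := by
      refine (Finset.abs_sum_le_sum_abs _ _).trans ?_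
      rw [← hcard, Finset.sum_mul]
      refine Finset.sum_le_sum fun j _ => ?_
      rw [abs_mul]
      exact (mul_le_of_le_one_right (abs_nonneg _) (Real.abs_cos_le_one _)).trans ((hHR j).le v)
    rw [hfa]
    refine (abs_add_le _ _).trans ((add_le_add (hF'.le v) h1).trans ?_)
    have w := Wp_pos q v
    have h2 : 0 ≤ MF * Wp q v := by positivity
    have h3 : 0 ≤ (n : ℝ) * M₁ * Wp q v := by positivity
    calc MF * Wp q v + n * M₁ * Wp q v ≤ 2 * (MF * Wp q v) + 2 * (n * M₁ * Wp q v) := by linarith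
      _ = _ := by ring
  · rw [hfa, add_sub_cancel_left]
    refine (Finset.abs_sum_le_sum_abs _ _).trans ?_
    have e : K₃ * (∑ j, a j) / (1 + δ * t ^ (1 + 2 * s)) * Wp q v =
        ∑ j, K₃ * a j * (1 + δ * t ^ (1 + 2 * s))⁻¹ * Wp q v := by
      rw [← Finset.sum_mul, ← Finset.sum_mul, ← Finset.mul_sum, div_eq_mul_inv]
    rw [e]
    refine Finset.sum_le_sum fun j _ => ?_
    rw [abs_mul]
    refine (mul_le_of_le_one_right (abs_nonneg _) (Real.abs_cos_le_one _)).trans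
      ((hamp j).trans ?_)
    have h1 : ((1 + δ * t ^ (1 + 2 * s)) ^ 2)⁻¹ ≤ (1 + δ * t ^ (1 + 2 * s))⁻¹ := by
      refine inv_anti₀ (by linarith) ?_
      exact le_self_pow₀ (by linarith) (by norm_num)
    have h2 := ha0 j
    have h3 := Wp_pos (q + 2) v
    have h4 : 0 ≤ (1 + δ * t ^ (1 + 2 * s))⁻¹ := by positivity
    calc K₃ * a j * ((1 + δ * t ^ (1 + 2 * s)) ^ 2)⁻¹ * Wp (q + 2) v ≤
          K₃ * a j * (1 + δ * t ^ (1 + 2 * s))⁻¹ * Wp (q + 2) v :=
          mul_le_mul_of_nonneg_right (mul_le_mul_of_nonneg_left h1 (by positivity)) h3.le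
      _ ≤ K₃ * a j * (1 + δ * t ^ (1 + 2 * s))⁻¹ * Wp q v :=
          mul_le_mul_of_nonneg_left (Unf_wp (by omega) v) (by positivity)
  · have hm0 := Unf_min0 h α
    rw [hfa, hfa]
    generalize hCC : (fun (j : Fin n) (u : Vec d) =>
      Real.cos (2 * Real.pi * dot (k j) x + φ j - dot ((2 * Real.pi * t) • k j) u)) = CC
    have hCC' : ∀ j u, Real.cos (2 * Real.pi * dot (k j) x + φ j -
        dot ((2 * Real.pi * t) • k j) u) = CC j u := fun j u => by rw [← hCC]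
    have hC1 : ∀ j u, |CC j u| ≤ 1 := fun j u => by
      rw [← hCC' j u]; exact Real.abs_cos_le_one _
    have hC2 : ∀ j, |CC j (v + h) - CC j v| ≤
        2 * min 1 ((2 * Real.pi * t * len (k j)) * len h) := by
      intro j
      rw [← hCC' j (v + h), ← hCC' j v]
      refine Unf_cos _ _ _ ?_
      have e1 : 2 * Real.pi * dot (k j) x + φ j - dot ((2 * Real.pi * t) • k j) (v + h) -
          (2 * Real.pi * dot (k j) x + φ j - dot ((2 * Real.pi * t) • k j) v) =
          -dot ((2 * Real.pi * t) • k j) h := by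
        rw [dot_add]; ring
      rw [e1, abs_neg]
      refine (Unf_dot _ _).trans ?_
      rw [len_smul (by positivity)]
    simp only [hCC']
    have e : F (v + h) + ∑ j, Am S δ (cc j) (k j) t (v + h) * CC j (v + h) -
        (F v + ∑ j, Am S δ (cc j) (k j) t v * CC j v) =
        (F (v + h) - F v) +
        (∑ j, (Am S δ (cc j) (k j) t (v + h) - Am S δ (cc j) (k j) t v) * CC j (v + h)) +
        ∑ j, Am S δ (cc j) (k j) t v * (CC j (v + h) - CC j v) := by
      have e2 : ∑ j, Am S δ (cc j) (k j) t (v + h) * CC j (v + h) -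
          ∑ j, Am S δ (cc j) (k j) t v * CC j v =
          (∑ j, (Am S δ (cc j) (k j) t (v + h) - Am S δ (cc j) (k j) t v) * CC j (v + h)) +
          ∑ j, Am S δ (cc j) (k j) t v * (CC j (v + h) - CC j v) := by
        rw [← Finset.sum_sub_distrib, ← Finset.sum_add_distrib]
        exact Finset.sum_congr rfl fun j _ => by ring
      linarith
    rw [e]
    have b1 : |F (v + h) - F v| ≤ 2 * MF * min 1 (len h) ^ α := Unf_hol2 hF' v h
    have b2 : |∑ j, (Am S δ (cc j) (k j) t (v + h) - Am S δ (cc j) (k j) t v) * CC j (v + h)| ≤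
        2 * (n * M₁) * min 1 (len h) ^ α := by
      refine (Finset.abs_sum_le_sum_abs _ _).trans ?_
      rw [← hcard, Finset.mul_sum, Finset.sum_mul]
      refine Finset.sum_le_sum fun j _ => ?_
      rw [abs_mul]
      exact (mul_le_of_le_one_right (abs_nonneg _) (hC1 j (v + h))).trans
        (Unf_hol2 (hHR j) v h)
    have b3 : |∑ j, Am S δ (cc j) (k j) t v * (CC j (v + h) - CC j v)| ≤
        ∑ j, (2 * K₃ * a j * ((1 + δ * t ^ (1 + 2 * s)) ^ 2)⁻¹ * Wp (q + 2) v) *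
            min 1 ((2 * Real.pi * t * len (k j)) * len h) := by
      refine (Finset.abs_sum_le_sum_abs _ _).trans (Finset.sum_le_sum fun j _ => ?_)
      rw [abs_mul]
      have h2 := ha0 j
      have h3 := Wp_pos (q + 2) v
      calc |Am S δ (cc j) (k j) t v| * |CC j (v + h) - CC j v| ≤
            (K₃ * a j * ((1 + δ * t ^ (1 + 2 * s)) ^ 2)⁻¹ * Wp (q + 2) v) *
              (2 * min 1 ((2 * Real.pi * t * len (k j)) * len h)) :=
            mul_le_mul (hamp j) (hC2 j) (abs_nonneg _) (by positivity)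
        _ = _ := by ring
    refine (abs_add_le _ _).trans ((add_le_add ((abs_add_le _ _).trans (add_le_add b1 b2))
      b3).trans (le_of_eq ?_))
    ring

end Pool.Agent.H82.HW
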