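import Pool.Agent.H82.HW.FootS
import Pool.Agent.H82.HW.Unf
import Pool.Agent.H82.HF.Cont

/-!
# THEOREM W (MP_c15324_an), module ContW: the approximate solution with a slow variable

`fw` = the approximate solution in the original variables. Continuity: `(y,v,r) ↦ sgE (F y) ((2πr)k) v` is jointly continuous (`kap`,
`hol`, `sgE_lip` with uniform constants). Characteristic derivative in the scaled time `τ = N t`: the foot is constant, so it is `fa_char`.
-/

set_option autoImplicit false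

open MeasureTheory Set Filter Topology Pool.Agent.H25.Kin Pool.Agent.H48.PL Pool.Agent.H48.PD
open Pool.Agent.H82.BK Pool.Agent.H82.CM Pool.Agent.H48.PR
open Pool.Agent.H82.HF (HR SgH hr_cont hr_mono Fam fa GG Am Dm CG fa_zero fa_char)
open Pool.Agent.H15.HF (sgE)

namespace Pool.Agent.H82.HW

variable {d : ℕ} {γ s C Ca cb : ℝ} {b : ℝ → ℝ}

/-- the approximate solution in the original variables, `N` the large frequency -/
noncomputable def fw (γ : ℝ) (b : ℝ → ℝ) (N : ℝ) {n : ℕ} (F : Vec d → Vec d → ℝ)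
    (cc : Fin n → Vec d → Vec d → ℝ) (k : Fin n → Vec d) (φ : Fin n → ℝ) (t : ℝ) (x v : Vec d) :
    ℝ :=
  fa (sgF γ b t x F) N⁻¹ (ft t x F) (fun j => ft t x (cc j)) k φ (N * t) (N • x) v

private lemma cw_dot (k : Vec d) : Continuous fun x : Vec d => dot k x := by
  unfold dot
  fun_prop

private lemma cw_dot_smul (r : ℝ) (k v : Vec d) : dot (r • k) v = r * dot k v := by
  unfold dot
  rw [Finset.mul_sum]
  refine Finset.sum_congr rfl fun i _ => ?_
  simp only [Pi.smul_apply, smul_eq_mul]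
  ring

private lemma cw_dot_add (k x y : Vec d) : dot k (x + y) = dot k x + dot k y := by
  unfold dot
  rw [← Finset.sum_add_distrib]
  refine Finset.sum_congr rfl fun i _ => ?_
  simp only [Pi.add_apply]
  ring

private lemma cw_dot_smul' (r : ℝ) (k v : Vec d) : dot k (r • v) = r * dot k v := by
  unfold dot
  rw [Finset.mul_sum]
  refine Finset.sum_congr rfl fun i _ => ?_
  simp only [Pi.smul_apply, smul_eq_mul]
  ring

private lemma cw_dot_single (k : Vec d) (i : Fin d) : dot k (Pi.single i 1) = k i := by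
  unfold dot
  rw [Finset.sum_eq_single i]
  · simp
  · intro j _ hj
    rw [Pi.single_eq_of_ne hj]
    simp
  · intro h
    exact absurd (Finset.mem_univ i) h

/-- joint continuity of the damping rate -/
private lemma cw_S (H : Hyp d γ s b C Ca) (h0 : 0 ≤ γ) (hs : 2 * s < 1) {α : ℝ} (hα : 0 < α)
    {q : ℕ} (hq : d + 10 ≤ q) {M : ℝ} {F : Vec d → Vec d → ℝ} (hF : HRy α q M F) {K c κ₀ : ℝ}
    (hS : ∀ y, SgH s α K c κ₀ (fun κ v => sgE γ b 0 (F y) κ v)) (k : Vec d) :
    Continuous fun p : (Vec d × Vec d) × ℝ =>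
      sgE γ b 0 (F p.1.1) ((2 * Real.pi * p.2) • k) p.1.2 := by
  have hs0 : 0 < s := H.hs
  have hs2 : 0 < 2 * s := by linarith
  obtain ⟨Ki, hKi, hlip⟩ := sgE_lip H h0 hs hq
  have hM := (hF.hr 0).nn
  rw [continuous_iff_continuousAt]
  rintro ⟨⟨y, v⟩, r⟩
  have h1 : Continuous fun p : (Vec d × Vec d) × ℝ => K * (1 + nsq p.1.2) *
      len ((2 * Real.pi * p.2) • k - (2 * Real.pi * r) • k) ^ (2 * s) +
      K * min 1 (len (p.1.2 - v)) ^ α *
      (1 + nsq v + nsq p.1.2) * len ((2 * Real.pi * r) • k) ^ (2 * s) +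
      Ki * (M * min 2 (len (p.1.1 - y))) * len ((2 * Real.pi * r) • k) ^ (2 * s) *
        (1 + nsq v) := by
    have a1 : Continuous fun p : (Vec d × Vec d) × ℝ => min 1 (len (p.1.2 - v)) ^ α :=
      Continuous.rpow_const (continuous_const.min (continuous_len.comp (by fun_prop)))
        fun _ => Or.inr hα.le
    have a2 : Continuous fun p : (Vec d × Vec d) × ℝ => nsq p.1.2 :=
      continuous_sq.comp (by fun_prop)
    have a4 : Continuous fun p : (Vec d × Vec d) × ℝ =>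
        len ((2 * Real.pi * p.2) • k - (2 * Real.pi * r) • k) ^ (2 * s) :=
      Continuous.rpow_const (continuous_len.comp (by fun_prop)) fun _ => Or.inr hs2.le
    have a5 : Continuous fun p : (Vec d × Vec d) × ℝ => min 2 (len (p.1.1 - y)) :=
      continuous_const.min (continuous_len.comp (by fun_prop))
    exact (((continuous_const.mul (continuous_const.add a2)).mul a4).add
      (((continuous_const.mul a1).mul (continuous_const.add a2)).mul continuous_const)).add
      (((continuous_const.mul (continuous_const.mul a5)).mul continuous_const).mul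
        continuous_const)
  have h2 := h1.tendsto ((y, v), r)
  simp only [sub_self, len_zero, Real.zero_rpow hs2.ne', Real.zero_rpow hα.ne', mul_zero,
    add_zero, zero_mul, min_eq_right (zero_le_one (α := ℝ)),
    min_eq_right (show (0 : ℝ) ≤ 2 by norm_num)] at h2
  unfold ContinuousAt
  rw [tendsto_iff_norm_sub_tendsto_zero]
  refine squeeze_zero (fun _ => norm_nonneg _) (fun p => ?_) h2
  rw [Real.norm_eq_abs]
  obtain ⟨⟨y', v'⟩, r'⟩ := p
  have b1 := (hS y').kap ((2 * Real.pi * r') • k) ((2 * Real.pi * r) • k) v'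
  have b2 := (hS y').hol ((2 * Real.pi * r) • k) v (v' - v)
  rw [add_sub_cancel] at b2
  have b3 := hlip α M F hα hF y' y ((2 * Real.pi * r) • k) v
  have e : sgE γ b 0 (F y') ((2 * Real.pi * r') • k) v' - sgE γ b 0 (F y) ((2 * Real.pi * r) • k) v =
      (sgE γ b 0 (F y') ((2 * Real.pi * r') • k) v' - sgE γ b 0 (F y') ((2 * Real.pi * r) • k) v') +
      (sgE γ b 0 (F y') ((2 * Real.pi * r) • k) v' - sgE γ b 0 (F y') ((2 * Real.pi * r) • k) v) +
      (sgE γ b 0 (F y') ((2 * Real.pi * r) • k) v - sgE γ b 0 (F y) ((2 * Real.pi * r) • k) v) := by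
    ring
  show |sgE γ b 0 (F y') ((2 * Real.pi * r') • k) v' -
    sgE γ b 0 (F y) ((2 * Real.pi * r) • k) v| ≤ _
  rw [e]
  exact (abs_add_three _ _ _).trans (add_le_add (add_le_add b1 b2) b3)

theorem fw_cont (H : Hyp d γ s b C Ca) (h0 : 0 ≤ γ) (hs : 2 * s < 1) {α : ℝ} (hα : 0 < α)
    {q : ℕ} (hq : d + 10 ≤ q) {M MF : ℝ} {F : Vec d → Vec d → ℝ} (hF : HRy α q MF F) {K c κ₀ : ℝ}
    (hS : ∀ y, SgH s α K c κ₀ (fun κ v => sgE γ b 0 (F y) κ v)) {n : ℕ} {a : Fin n → ℝ}
    {cc : Fin n → Vec d → Vec d → ℝ} {k : Fin n → Vec d} (hc : FamY α q M a cc k)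
    (φ : Fin n → ℝ) (N : ℝ) :
    Continuous fun p : ℝ × Vec d × Vec d => fw γ b N F cc k φ p.1 p.2.1 p.2.2 := by
  have hft : Continuous fun p : ℝ × Vec d × Vec d => ((p.2.1 - p.1 • p.2.2, p.2.2) : Vec d × Vec d) := by
    fun_prop
  unfold fw fa GG Am Dm ft sgF
  refine Continuous.add ((hry_cont hα hF).comp hft) ?_
  refine continuous_finsetSum _ fun j _ => ?_
  refine Continuous.mul (Continuous.mul ((hry_cont hα (hc.hc j)).comp hft) ?_) ?_
  · refine Real.continuous_exp.comp (Continuous.neg (continuous_const.mul ?_))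
    have h1 := cw_S H h0 hs hα hq hF hS (k j)
    have h2 : Continuous fun p : (Vec d × Vec d) × ℝ =>
        ∫ r in (0 : ℝ)..p.2, sgE γ b 0 (F p.1.1) ((2 * Real.pi * r) • k j) p.1.2 :=
      intervalIntegral.continuous_parametric_primitive_of_continuous
        (f := fun (p : Vec d × Vec d) (r : ℝ) =>
          sgE γ b 0 (F p.1) ((2 * Real.pi * r) • k j) p.2) h1
    have h3 : Continuous fun p : ℝ × Vec d × Vec d =>
        (((p.2.1 - p.1 • p.2.2, p.2.2), N * p.1) : (Vec d × Vec d) × ℝ) := by fun_prop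
    exact h2.comp h3
  · refine Real.continuous_cos.comp (Continuous.sub ?_ ?_)
    · exact ((continuous_const.mul ((cw_dot (k j)).comp (by fun_prop))).add
        continuous_const)
    · simp only [cw_dot_smul]
      exact (continuous_const.mul (continuous_const.mul continuous_fst)).mul
        ((cw_dot (k j)).comp continuous_snd.snd)

theorem fw_per {α M : ℝ} {q n : ℕ} {F : Vec d → Vec d → ℝ} {MF : ℝ} (hF : HRy α q MF F)
    {a : Fin n → ℝ} {cc : Fin n → Vec d → Vec d → ℝ} {k : Fin n → Vec d}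
    (hc : FamY α q M a cc k) (φ : Fin n → ℝ) (N : ℕ) (t : ℝ) (x v : Vec d) (i : Fin d) :
    fw γ b N F cc k φ t (x + Pi.single i 1) v = fw γ b N F cc k φ t x v := by
  have hfoot : x + Pi.single i 1 - t • v = (x - t • v) + Pi.single i 1 := by abel
  have e1 : F (x + Pi.single i 1 - t • v) = F (x - t • v) := by
    rw [hfoot]
    exact funext fun w => hF.per _ i w
  have e2 : ∀ j, cc j (x + Pi.single i 1 - t • v) = cc j (x - t • v) := fun j => by
    rw [hfoot]
    exact funext fun w => (hc.hc j).per _ i w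
  unfold fw fa GG Am Dm ft sgF
  rw [e1]
  congr 1
  refine Finset.sum_congr rfl fun j _ => ?_
  beta_reduce
  rw [e1, e2 j]
  obtain ⟨z, hz⟩ := hc.hk j i
  have e : 2 * Real.pi * dot (k j) ((N : ℝ) • (x + Pi.single i 1)) + φ j -
      dot ((2 * Real.pi * ((N : ℝ) * t)) • k j) v =
      (2 * Real.pi * dot (k j) ((N : ℝ) • x) + φ j - dot ((2 * Real.pi * ((N : ℝ) * t)) • k j) v) +
        ((N * z : ℤ) : ℝ) * (2 * Real.pi) := by
    rw [smul_add, cw_dot_add, cw_dot_smul' _ _ (Pi.single i 1), cw_dot_single, hz]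
    push_cast
    ring
  rw [e, Real.cos_add_int_mul_two_pi]

theorem fw_zero (N : ℝ) {n : ℕ} (F : Vec d → Vec d → ℝ) (cc : Fin n → Vec d → Vec d → ℝ)
    (k : Fin n → Vec d) (φ : Fin n → ℝ) (x v : Vec d) :
    fw γ b N F cc k φ 0 x v =
      F x v + ∑ j, cc j x v * Real.cos (2 * Real.pi * dot (k j) (N • x) + φ j) := by
  unfold fw
  rw [mul_zero, fa_zero]
  unfold ft
  simp only [zero_smul, sub_zero]

theorem fw_char (hs : 0 < s) {α : ℝ} {F : Vec d → Vec d → ℝ} {K c κ₀ : ℝ}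
    (hS : ∀ y, SgH s α K c κ₀ (fun κ v => sgE γ b 0 (F y) κ v)) {N : ℝ} (hN : 0 < N) {n : ℕ}
    (cc : Fin n → Vec d → Vec d → ℝ) (k : Fin n → Vec d) (φ : Fin n → ℝ) (t₀ : ℝ)
    (x₀ v₀ : Vec d) :
    HasDerivAt (fun τ : ℝ => fw γ b N F cc k φ (t₀ + τ) (x₀ + τ • v₀) v₀)
      (-(∑ j, sgF γ b t₀ x₀ F ((2 * Real.pi * (N * t₀)) • k j) v₀ *
        (Am (sgF γ b t₀ x₀ F) N⁻¹ (ft t₀ x₀ (cc j)) (k j) (N * t₀) v₀ *
        Real.cos (2 * Real.pi * dot (k j) (N • x₀) + φ j -
          dot ((2 * Real.pi * (N * t₀)) • k j) v₀)))) 0 := by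
  have h1 := fa_char (α := α) (K := K) (c := c) (κ₀ := κ₀) hs (hS (x₀ - t₀ • v₀)) N⁻¹
    (F (x₀ - t₀ • v₀)) (fun j => cc j (x₀ - t₀ • v₀)) k φ (N * t₀) (N • x₀) v₀
  have e1 : (fun τ : ℝ => fw γ b N F cc k φ (t₀ + τ) (x₀ + τ • v₀) v₀) =
      fun τ : ℝ => fa (fun κ v => sgE γ b 0 (F (x₀ - t₀ • v₀)) κ v) N⁻¹ (F (x₀ - t₀ • v₀))
        (fun j => cc j (x₀ - t₀ • v₀)) k φ (N * t₀ + N * τ) (N • x₀ + (N * τ) • v₀) v₀ := by
    funext τ
    have hf : x₀ + τ • v₀ - (t₀ + τ) • v₀ = x₀ - t₀ • v₀ := by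
      rw [add_smul]
      abel
    unfold fw fa GG Am Dm ft sgF
    beta_reduce
    rw [hf, mul_add, smul_add, smul_smul]
  rw [e1]
  have h2 : HasDerivAt (fun τ : ℝ => N * τ) N 0 := by
    have := (hasDerivAt_id (0 : ℝ)).const_mul N
    rwa [mul_one] at this
  have h3 : HasDerivAt (fun τ : ℝ => fa (fun κ v => sgE γ b 0 (F (x₀ - t₀ • v₀)) κ v) N⁻¹
      (F (x₀ - t₀ • v₀)) (fun j => cc j (x₀ - t₀ • v₀)) k φ (N * t₀ + τ) (N • x₀ + τ • v₀) v₀)
      (-(N⁻¹ * ∑ j, sgE γ b 0 (F (x₀ - t₀ • v₀)) ((2 * Real.pi * (N * t₀)) • k j) v₀ *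
        (Am (fun κ v => sgE γ b 0 (F (x₀ - t₀ • v₀)) κ v) N⁻¹ (cc j (x₀ - t₀ • v₀)) (k j)
          (N * t₀) v₀ * Real.cos (2 * Real.pi * dot (k j) (N • x₀) + φ j -
            dot ((2 * Real.pi * (N * t₀)) • k j) v₀)))) (N * 0) := by
    rw [mul_zero]
    exact h1
  have h4 := HasDerivAt.comp (0 : ℝ) h3 h2
  refine h4.congr_deriv ?_
  have hN' : N⁻¹ * N = 1 := inv_mul_cancel₀ hN.ne'
  unfold sgF ft Am Dm
  rw [neg_mul, mul_right_comm, hN', one_mul]

end Pool.Agent.H82.HW
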