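import Pool.Agent.H82.HF.Defs
import Pool.Agent.H15.HF.Def

/-!
# THEOREM W (MP_c15324_an), homogenisation: definitions of the layer lemma with a slow variable

`F : Vec d → Vec d → ℝ`, `F y v`, `y` = slow space variable. Along a characteristic `x = x₀ + t v` the foot `x - t v = x₀` is
constant; the approximate solution is the one of V in the slice `(t,x)` with `F (x - t v) v`, `c_j (x - t v) v` and the damping
rate `sgE (F (x - t v)) κ v`, evaluated at `(δ, t, x) = (1/N, N t, N x)`.
-/

set_option autoImplicit false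

open MeasureTheory Set Filter Topology Pool.Agent.H25.Kin Pool.Agent.H48.PL Pool.Agent.H48.PD
open Pool.Agent.H82.BK Pool.Agent.H82.CM Pool.Agent.H48.PR
open Pool.Agent.H82.HF (HR)

namespace Pool.Agent.H82.HW

variable {d : ℕ}

/-- slowly varying functions of the velocity: Lipschitz and periodic in the slow variable `y` -/
structure HRy (α : ℝ) (q : ℕ) (C : ℝ) (F : Vec d → Vec d → ℝ) : Prop where
  hr : ∀ y, HR α q C (F y)
  lip : ∀ y y' v, |F y v - F y' v| ≤ C * len (y - y') * Wp q v
  per : ∀ y i v, F (y + Pi.single i 1) v = F y v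

/-- admissible families of modes with slowly varying coefficients -/
structure FamY (α : ℝ) (q : ℕ) {n : ℕ} (M : ℝ) (a : Fin n → ℝ) (c : Fin n → Vec d → Vec d → ℝ)
    (k : Fin n → Vec d) : Prop where
  hc : ∀ j, HRy α q M (c j)
  ha : ∀ j y v, |c j y v| ≤ a j * Wp q v
  hk : ∀ j i, ∃ z : ℤ, k j i = z
  hk0 : ∀ j, k j ≠ 0

/-- the value at the foot of the characteristic through `(t,x)` with the velocity `v` -/
def ft (t : ℝ) (x : Vec d) (F : Vec d → Vec d → ℝ) (v : Vec d) : ℝ := F (x - t • v) v

/-- the damping rate of the function frozen at the foot -/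
noncomputable def sgF (γ : ℝ) (b : ℝ → ℝ) (t : ℝ) (x : Vec d) (F : Vec d → Vec d → ℝ)
    (κ v : Vec d) : ℝ := Pool.Agent.H15.HF.sgE γ b 0 (F (x - t • v)) κ v

end Pool.Agent.H82.HW
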