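import Pool.Agent.H82.HW.Defs
import Pool.Agent.H82.HF.Amp
import Pool.Agent.H15.HF.SgF
import Pool.Agent.H15.HF.Sg

/-!
# THEOREM W (MP_c15324_an), module Foot: the classes of the functions frozen at the foot of the characteristic

`0 ≤ t ≤ 1`. `ft_hr`: `ft t x F` is of the class `HR α q (3C)`. `sgF_H`: `sgF t x F` has the properties `SgH` with constants
independent of `t`, `x`. `sg_diff`: `|sgE (ft t x F) κ v - sgF t x F κ v| ≤ L t (1+|v|²)² |κ|^(2s)`.
-/

set_option autoImplicit false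

open MeasureTheory Set Filter Topology Pool.Agent.H25.Kin Pool.Agent.H48.PL Pool.Agent.H48.PD
open Pool.Agent.H82.BK Pool.Agent.H82.CM Pool.Agent.H48.PR
open Pool.Agent.H82.HF (HR SgH hr_cont hr_mono Fam)
open Pool.Agent.H15.HF (sgE Jf sg_int sg_H)

namespace Pool.Agent.H82.HW

variable {d : ℕ} {γ s C Ca cb : ℝ} {b : ℝ → ℝ}

private lemma Foot_wp {q q' : ℕ} (hq : q ≤ q') (v : Vec d) : Wp q' v ≤ Wp q v := by
  have h := sq_nonneg' v
  unfold Wp
  exact inv_anti₀ (by positivity) (pow_le_pow_right₀ (by linarith) hq)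

/-- the number which measures the change of the foot -/
theorem foot_min {α t l : ℝ} (hα : 0 < α) (h2 : α ≤ 1) (ht1 : t ≤ 1)
    (hl : 0 ≤ l) : min 2 (t * l) ≤ 2 * min 1 l ^ α := by
  rcases le_or_gt l 1 with h | h
  · rw [min_eq_right h]
    have h3 : l ≤ l ^ α := by
      rcases hl.eq_or_lt with h4 | h4
      · rw [← h4, Real.zero_rpow hα.ne']
      · calc l = l ^ (1 : ℝ) := (Real.rpow_one l).symm
          _ ≤ l ^ α := Real.rpow_le_rpow_of_exponent_ge h4 h h2
    have h5 : t * l ≤ l := mul_le_of_le_one_left hl ht1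
    have h6 : 0 ≤ l ^ α := Real.rpow_nonneg hl _
    exact (min_le_right _ _).trans (by linarith)
  · rw [min_eq_left h.le, Real.one_rpow]
    exact (min_le_left _ _).trans (by norm_num)

/-- the change of a slowly varying function -/
theorem foot_lip {α C : ℝ} {q : ℕ} {F : Vec d → Vec d → ℝ} (hF : HRy α q C F)
    (y y' u : Vec d) : |F y u - F y' u| ≤ C * min 2 (len (y - y')) * Wp q u := by
  have hC := (hF.hr y).nn
  have hW := Wp_pos q u
  rcases le_total 2 (len (y - y')) with h | h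
  · rw [min_eq_left h]
    have h1 := (hF.hr y).le u
    have h2 := (hF.hr y').le u
    refine (abs_sub _ _).trans ?_
    linarith
  · rw [min_eq_right h]
    exact hF.lip y y' u

theorem foot_len {t : ℝ} (ht : 0 ≤ t) (x v h : Vec d) :
    len ((x - t • (v + h)) - (x - t • v)) = t * len h := by
  have e : (x - t • (v + h)) - (x - t • v) = t • (-h) := by
    rw [smul_add, smul_neg]
    abel
  rw [e, len_smul ht]
  congr 1
  unfold len nsq
  simp

theorem ft_hr {α C : ℝ} (hα : 0 < α) (h2 : α ≤ 1) {q : ℕ} {F : Vec d → Vec d → ℝ}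
    (hF : HRy α q C F) {t : ℝ} (ht : 0 ≤ t) (ht1 : t ≤ 1) (x : Vec d) :
    HR α q (3 * C) (ft t x F) := by
  have hC := (hF.hr x).nn
  refine ⟨by positivity, fun v => ?_, fun v h => ?_⟩
  · refine ((hF.hr (x - t • v)).le v).trans ?_
    exact mul_le_mul_of_nonneg_right (by linarith) (Wp_pos q v).le
  · have h1 := (hF.hr (x - t • (v + h))).hol v h
    have h3 := foot_lip hF (x - t • (v + h)) (x - t • v) v
    rw [foot_len ht] at h3
    have h4 := foot_min hα h2 ht1 (len_nonneg h)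
    have hW := Wp_pos q v
    have hW' := Wp_pos q (v + h)
    have hm : 0 ≤ min 1 (len h) ^ α := Real.rpow_nonneg (le_min zero_le_one (len_nonneg h)) α
    have h5 : C * min 2 (t * len h) * Wp q v ≤ C * (2 * min 1 (len h) ^ α) * Wp q v :=
      mul_le_mul_of_nonneg_right (mul_le_mul_of_nonneg_left h4 hC) hW.le
    have e : ft t x F (v + h) - ft t x F v =
        (F (x - t • (v + h)) (v + h) - F (x - t • (v + h)) v) +
          (F (x - t • (v + h)) v - F (x - t • v) v) := by
      unfold ft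
      ring
    rw [e]
    refine (abs_add_le _ _).trans ((add_le_add h1 (h3.trans h5)).trans ?_)
    have h6 : 0 ≤ C * min 1 (len h) ^ α * Wp q (v + h) := by positivity
    calc C * min 1 (len h) ^ α * (Wp q v + Wp q (v + h)) + C * (2 * min 1 (len h) ^ α) * Wp q v
        ≤ C * min 1 (len h) ^ α * (Wp q v + Wp q (v + h)) +
          C * (2 * min 1 (len h) ^ α) * Wp q v + 2 * (C * min 1 (len h) ^ α * Wp q (v + h)) := by
          linarith
      _ = _ := by ring

/-- the damping rate is linear -/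
private lemma Foot_lin (H : Hyp d γ s b C Ca) (h0 : 0 ≤ γ) (hs : 2 * s < 1) {q : ℕ}
    (hq : d + 10 ≤ q) {F G : Vec d → ℝ} (hF : Measurable F) (hG : Measurable G) {A B : ℝ}
    (hA : 0 ≤ A) (hB : 0 ≤ B) (h1 : ∀ u, |F u| ≤ A * Wp q u) (h2 : ∀ u, |G u| ≤ B * Wp q u)
    (κ v : Vec d) : sgE γ b 0 F κ v - sgE γ b 0 G κ v = sgE γ b 0 (fun u => F u - G u) κ v := by
  obtain ⟨K, hK, hi⟩ := sg_int H h0 hs hq
  have i1 := (hi 0 le_rfl F A hF hA h1 κ v).1
  have i2 := (hi 0 le_rfl G B hG hB h2 κ v).1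
  unfold sgE
  rw [← integral_sub i1 i2]
  refine integral_congr_ae (Eventually.of_forall fun m => ?_)
  show len m ^ γ * (F (v - m) * Jf γ b 0 κ m) - len m ^ γ * (G (v - m) * Jf γ b 0 κ m) =
    len m ^ γ * ((F (v - m) - G (v - m)) * Jf γ b 0 κ m)
  ring

/-- change of the damping rate with the slow variable -/
theorem sgE_lip (H : Hyp d γ s b C Ca) (h0 : 0 ≤ γ) (hs : 2 * s < 1) {q : ℕ} (hq : d + 10 ≤ q) :
    ∃ K : ℝ, 0 ≤ K ∧ ∀ (α C : ℝ) (F : Vec d → Vec d → ℝ), 0 < α → HRy α q C F →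
      ∀ y y' κ v : Vec d, |sgE γ b 0 (F y) κ v - sgE γ b 0 (F y') κ v| ≤
        K * (C * min 2 (len (y - y'))) * len κ ^ (2 * s) * (1 + nsq v) := by
  obtain ⟨K, hK, hi⟩ := sg_int H h0 hs hq
  refine ⟨K, hK, fun α C F hα hF y y' κ v => ?_⟩
  have m1 := (hr_cont hα (hF.hr y)).measurable
  have m2 := (hr_cont hα (hF.hr y')).measurable
  have hC := (hF.hr y).nn
  rw [Foot_lin H h0 hs hq m1 m2 hC hC (hF.hr y).le (hF.hr y').le κ v]
  exact (hi 0 le_rfl (fun u => F y u - F y' u) (C * min 2 (len (y - y'))) (m1.sub m2)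
    (mul_nonneg hC (le_min (by norm_num) (len_nonneg _))) (fun u => foot_lip hF y y' u) κ v).2

/-- the difference between the rate of the slice function and the rate frozen at the foot -/
theorem sg_diff (H : Hyp d γ s b C Ca) (h0 : 0 ≤ γ) (hs : 2 * s < 1) {q : ℕ} (hq : d + 11 ≤ q) :
    ∃ K : ℝ, 0 ≤ K ∧ ∀ (α C : ℝ) (F : Vec d → Vec d → ℝ), 0 < α → α ≤ 1 → HRy α q C F →
      ∀ (t : ℝ) (x κ v : Vec d), 0 ≤ t → t ≤ 1 →
        |sgE γ b 0 (ft t x F) κ v - sgF γ b t x F κ v| ≤
          K * C * t * (1 + nsq v) ^ 2 * len κ ^ (2 * s) := by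
  obtain ⟨K, hK, hi⟩ := sg_int H h0 hs (q := q - 1) (by omega)
  refine ⟨2 * K, by positivity, fun α C F hα hα1 hF t x κ v ht ht1 => ?_⟩
  have hC := (hF.hr x).nn
  have hr := ft_hr hα hα1 hF ht ht1 x
  have m1 := (hr_cont hα hr).measurable
  have m2 := (hr_cont hα (hF.hr (x - t • v))).measurable
  have hq' : d + 10 ≤ q := by omega
  unfold sgF
  rw [Foot_lin H h0 hs hq' m1 m2 hr.nn hC hr.le (hF.hr (x - t • v)).le κ v]
  have hb : ∀ u, |ft t x F u - F (x - t • v) u| ≤ (2 * C * t * (1 + nsq v)) * Wp (q - 1) u := by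
    intro u
    have h3 : |ft t x F u - F (x - t • v) u| ≤ C * len ((x - t • u) - (x - t • v)) * Wp q u :=
      hF.lip (x - t • u) (x - t • v) u
    have h4 : len ((x - t • u) - (x - t • v)) = t * len (v - u) := by
      have e : (x - t • u) - (x - t • v) = t • (v - u) := by
        rw [smul_sub]
        abel
      rw [e, len_smul ht]
    have h5 : len (v - u) ≤ 2 * (1 + nsq v) * (1 + nsq u) := by
      have h6 : nsq (v - u) ≤ 2 * nsq v + 2 * nsq u := by
        have h7 := nsq_par v u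
        have h8 := sq_nonneg' (v + u)
        linarith
      have n1 := sq_nonneg' v
      have n2 := sq_nonneg' u
      have h9 : len (v - u) ≤ (1 + len (v - u) ^ 2) / 2 := by nlinarith [sq_nonneg (len (v - u) - 1)]
      rw [len_sq] at h9
      nlinarith [mul_nonneg n1 n2]
    rw [h4] at h3
    have hW : Wp q u * (1 + nsq u) = Wp (q - 1) u := by
      have h6 := sq_nonneg' u
      have h7 : 1 + nsq u ≠ 0 := by positivity
      obtain ⟨q', rfl⟩ : ∃ q', q = q' + 1 := ⟨q - 1, by omega⟩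
      unfold Wp
      rw [Nat.add_sub_cancel, pow_succ, mul_inv, inv_mul_cancel_right₀ h7]
    have hWq := Wp_pos q u
    calc |ft t x F u - F (x - t • v) u| ≤ C * (t * len (v - u)) * Wp q u := h3
      _ ≤ C * (t * (2 * (1 + nsq v) * (1 + nsq u))) * Wp q u := by gcongr
      _ = (2 * C * t * (1 + nsq v)) * (Wp q u * (1 + nsq u)) := by ring
      _ = _ := by rw [hW]
  have n1 := sq_nonneg' v
  have h6 := (hi 0 le_rfl (fun u => ft t x F u - F (x - t • v) u) (2 * C * t * (1 + nsq v))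
    (m1.sub m2) (by positivity) hb κ v).2
  refine h6.trans (le_of_eq ?_)
  ring

end Pool.Agent.H82.HW
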