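import Pool.Agent.H82.HW.Foot
import Pool.Agent.H48.PS.Tch2

/-!
# THEOREM W (MP_c15324_an), module FootS: the damping rate at the foot has the properties `SgH`, uniformly in `t`, `x`

`low_ball`: by compactness of the torus there are `r₀`, `m₀ > 0` such that for every `y` there is `v₁` with `F y u ≥ m₀` for
`len (u - v₁) ≤ r₀`. Then `sg_H` of H15 gives uniform constants for every `y`, and `sgE_lip` the increments of the foot.
-/

set_option autoImplicit false

open MeasureTheory Set Filter Topology Pool.Agent.H25.Kin Pool.Agent.H48.PL Pool.Agent.H48.PD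
open Pool.Agent.H82.BK Pool.Agent.H82.CM Pool.Agent.H48.PR
open Pool.Agent.H82.HF (HR SgH hr_cont hr_mono Fam)
open Pool.Agent.H15.HF (sgE Jf sg_int sg_H)

namespace Pool.Agent.H82.HW

variable {d : ℕ} {γ s C Ca cb : ℝ} {b : ℝ → ℝ}

/-- reduction of the slow variable to the unit cube -/
private lemma FootS_per {F : Vec d → Vec d → ℝ} (hF : ∀ y i v, F (y + Pi.single i 1) v = F y v)
    (x : Vec d) : ∃ y ∈ Icc (0 : Vec d) 1, F y = F x := by
  refine ⟨fun i => Int.fract (x i), ⟨fun i => Int.fract_nonneg _, fun i =>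
    (Int.fract_lt_one _).le⟩, ?_⟩
  have hl : (fun i => (-(⌊x i⌋ : ℤ) : ℝ)) ∈
      Submodule.span ℤ (Set.range (Pi.basisFun ℝ (Fin d))) := by
    have e : (fun i => (-(⌊x i⌋ : ℤ) : ℝ)) = ∑ i, (-⌊x i⌋ : ℤ) • (Pi.basisFun ℝ (Fin d) i) := by
      funext j
      rw [Finset.sum_apply]
      simp only [Pi.basisFun_apply, Pi.smul_apply, Pi.single_apply]
      rw [Finset.sum_eq_single j]
      · simp
      · intro b _ hb
        simp [Ne.symm hb]
      · intro h
        exact absurd (Finset.mem_univ _) h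
    rw [e]
    exact Submodule.sum_mem _ fun i _ => Submodule.smul_mem _ _
      (Submodule.subset_span (Set.mem_range_self i))
  funext v
  have hP : Per fun y => F y v := fun y i => hF y i v
  have h := hP.span hl x
  have e2 : (fun i => (-(⌊x i⌋ : ℤ) : ℝ)) + x = fun i => Int.fract (x i) := by
    funext i
    simp only [Pi.add_apply, Int.fract]
    ring
  rw [e2] at h
  exact h

/-- joint continuity -/
theorem hry_cont {α M : ℝ} {q : ℕ} (hα : 0 < α) {F : Vec d → Vec d → ℝ} (hF : HRy α q M F) :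
    Continuous fun p : Vec d × Vec d => F p.1 p.2 := by
  rw [continuous_iff_continuousAt]
  rintro ⟨y, v⟩
  unfold ContinuousAt
  rw [tendsto_iff_norm_sub_tendsto_zero]
  have hM := (hF.hr y).nn
  have hc : Continuous fun p : Vec d × Vec d => M * len (p.1 - y) + |F y p.2 - F y v| := by
    have h1 : Continuous fun p : Vec d × Vec d => len (p.1 - y) :=
      continuous_len.comp (continuous_fst.sub continuous_const)
    have h2 : Continuous fun p : Vec d × Vec d => F y p.2 := (hr_cont hα (hF.hr y)).comp continuous_snd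
    exact (continuous_const.mul h1).add (h2.sub continuous_const).abs
  have h3 := hc.tendsto (y, v)
  have h4 : M * len ((y, v).1 - y) + |F y (y, v).2 - F y v| = 0 := by
    show M * len (y - y) + |F y v - F y v| = 0
    rw [sub_self, sub_self, len_zero, mul_zero, abs_zero, add_zero]
  rw [h4] at h3
  refine squeeze_zero (fun _ => norm_nonneg _) (fun p => ?_) h3
  rw [Real.norm_eq_abs]
  have h5 := hF.lip p.1 y p.2
  have h6 : M * len (p.1 - y) * Wp q p.2 ≤ M * len (p.1 - y) := by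
    have h7 := Wp_le_one q p.2
    exact mul_le_of_le_one_right (mul_nonneg hM (len_nonneg _)) h7
  calc |F p.1 p.2 - F y v| ≤ |F p.1 p.2 - F y p.2| + |F y p.2 - F y v| := abs_sub_le _ _ _
    _ ≤ M * len (p.1 - y) + |F y p.2 - F y v| := by linarith

theorem low_ball {α M : ℝ} {q : ℕ} (hα : 0 < α) {F : Vec d → Vec d → ℝ} (hF : HRy α q M F)
    (hF0 : ∀ y v, 0 ≤ F y v) (hFm : ∀ y, 0 < ∫ v, F y v) : ∃ r₀ > 0, ∃ m₀ > 0,
      ∀ y, ∃ v₁ : Vec d, ∀ u, len (u - v₁) ≤ r₀ → m₀ ≤ F y u := by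
  have hc := hry_cont hα hF
  have key : ∃ r₀ > 0, ∃ m₀ > 0, ∀ y ∈ Icc (0 : Vec d) 1, ∃ v₁ : Vec d, ∀ u,
      len (u - v₁) ≤ r₀ → m₀ ≤ F y u := by
    refine (isCompact_Icc (a := (0 : Vec d)) (b := 1)).induction_on
      (p := fun K => ∃ r₀ > 0, ∃ m₀ > 0, ∀ y ∈ K, ∃ v₁ : Vec d, ∀ u,
      len (u - v₁) ≤ r₀ → m₀ ≤ F y u) ?_ ?_ ?_ ?_
    · exact ⟨1, one_pos, 1, one_pos, fun y hy => absurd hy (notMem_empty _)⟩
    · rintro K K' hK ⟨r, hr, m, hm, h⟩
      exact ⟨r, hr, m, hm, fun y hy => h y (hK hy)⟩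
    · rintro K K' ⟨r, hr, m, hm, h⟩ ⟨r', hr', m', hm', h'⟩
      refine ⟨min r r', lt_min hr hr', min m m', lt_min hm hm', fun y hy => ?_⟩
      rcases hy with hy | hy
      · obtain ⟨v₁, h1⟩ := h y hy
        exact ⟨v₁, fun u hu => (min_le_left _ _).trans (h1 u (hu.trans (min_le_left _ _)))⟩
      · obtain ⟨v₁, h1⟩ := h' y hy
        exact ⟨v₁, fun u hu => (min_le_right _ _).trans (h1 u (hu.trans (min_le_right _ _)))⟩
    · intro y _
      obtain ⟨v₁, hv⟩ : ∃ v₁, 0 < F y v₁ := by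
        by_contra hcon
        push Not at hcon
        have h1 : F y = fun _ => 0 := funext fun v => le_antisymm (hcon v) (hF0 y v)
        have h2 := hFm y
        rw [h1, integral_zero] at h2
        exact lt_irrefl _ h2
      obtain ⟨r, hr, hb⟩ := Metric.continuous_iff.1 hc (y, v₁) (F y v₁ / 2) (by linarith)
      refine ⟨Metric.ball y r, mem_nhdsWithin_of_mem_nhds (Metric.ball_mem_nhds y hr), r / 2,
        by linarith, F y v₁ / 2, by linarith, fun y' hy' => ⟨v₁, fun u hu => ?_⟩⟩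
      have h2 : dist (y', u) (y, v₁) < r := by
        rw [Prod.dist_eq]
        refine max_lt hy' ?_
        rw [dist_eq_norm]
        have h3 : ‖u - v₁‖ ≤ len (u - v₁) := norm_le_len _
        linarith
      have h4 := hb (y', u) h2
      rw [Real.dist_eq] at h4
      have h5 := (abs_lt.1 h4).1
      show F y v₁ / 2 ≤ F y' u
      simp only at h5
      linarith
  obtain ⟨r, hr, m, hm, h⟩ := key
  refine ⟨r, hr, m, hm, fun y => ?_⟩
  obtain ⟨y', hy', he⟩ := FootS_per hF.per y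
  rw [← he]
  exact h y' hy'

theorem sgF_H (HL : HypL d γ s b C Ca cb) (h0 : 0 ≤ γ) (hs : 2 * s < 1) {α : ℝ} (hα : 0 < α)
    (hα1 : α ≤ 1) {q : ℕ} (hq : d + 10 ≤ q) {M : ℝ} {F : Vec d → Vec d → ℝ} (hF : HRy α q M F)
    (hF0 : ∀ y v, 0 ≤ F y v) (hFm : ∀ y, 0 < ∫ v, F y v) :
    ∃ K c κ₀ : ℝ, (∀ y, SgH s α K c κ₀ (fun κ v => sgE γ b 0 (F y) κ v)) ∧
      ∀ t, 0 ≤ t → t ≤ 1 → ∀ x, SgH s α K c κ₀ (sgF γ b t x F) := by
  obtain ⟨r₀, hr, m₀, hm, hball⟩ := low_ball hα hF hF0 hFm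
  obtain ⟨K, c, κ₀, hK⟩ := sg_H HL h0 hs hα hq M hr hm
  obtain ⟨Ki, hKi, hlip⟩ := sgE_lip HL.H h0 hs hq
  have hy : ∀ y, SgH s α K c κ₀ (fun κ v => sgE γ b 0 (F y) κ v) := fun y => by
    obtain ⟨v₁, hv⟩ := hball y
    exact hK (F y) v₁ (hF.hr y) (hF0 y) hv
  have hM := (hF.hr 0).nn
  have hK0 := (hy 0).K0
  have hx0 : 0 ≤ 2 * Ki * M := by positivity
  have hl : ∀ κ : Vec d, 0 ≤ len κ ^ (2 * s) := fun κ => Real.rpow_nonneg (len_nonneg κ) _
  have hy' : ∀ y, SgH s α (K + 2 * Ki * M) c κ₀ (fun κ v => sgE γ b 0 (F y) κ v) := fun y => by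
    have h := hy y
    refine ⟨by linarith, h.c0, h.k0, h.nn, fun κ v => (h.up κ v).trans ?_, h.low,
      fun κ v z => (h.hol κ v z).trans ?_, fun κ κ' v => (h.kap κ κ' v).trans ?_⟩
    · have n1 := sq_nonneg' v
      have := hl κ
      gcongr
      linarith
    · have n1 := sq_nonneg' v
      have n2 := sq_nonneg' (v + z)
      have := hl κ
      have hm0 : 0 ≤ min 1 (len z) ^ α := Real.rpow_nonneg (le_min zero_le_one (len_nonneg z)) α
      gcongr
      linarith
    · have n1 := sq_nonneg' v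
      have := hl (κ - κ')
      gcongr
      linarith
  refine ⟨K + 2 * Ki * M, c, κ₀, hy', fun t ht ht1 x => ?_⟩
  refine ⟨(hy' 0).K0, (hy' 0).c0, (hy' 0).k0, fun κ v => (hy' (x - t • v)).nn κ v,
    fun κ v => (hy' (x - t • v)).up κ v, fun κ v h => (hy' (x - t • v)).low κ v h,
    fun κ v h => ?_, fun κ κ' v => (hy' (x - t • v)).kap κ κ' v⟩
  have h1 := (hy (x - t • (v + h))).hol κ v h
  have h2 := hlip α M F hα hF (x - t • (v + h)) (x - t • v) κ v
  rw [foot_len ht] at h2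
  have h3 := foot_min hα hα1 ht1 (len_nonneg h)
  have n1 := sq_nonneg' v
  have n2 := sq_nonneg' (v + h)
  have hm0 : 0 ≤ min 1 (len h) ^ α := Real.rpow_nonneg (le_min zero_le_one (len_nonneg h)) α
  have hl' := hl κ
  have e : sgF γ b t x F κ (v + h) - sgF γ b t x F κ v =
      (sgE γ b 0 (F (x - t • (v + h))) κ (v + h) - sgE γ b 0 (F (x - t • (v + h))) κ v) +
      (sgE γ b 0 (F (x - t • (v + h))) κ v - sgE γ b 0 (F (x - t • v)) κ v) := by
    unfold sgF
    ring
  rw [e]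
  refine (abs_add_le _ _).trans ((add_le_add h1 h2).trans ?_)
  have h4 : Ki * (M * min 2 (t * len h)) * len κ ^ (2 * s) * (1 + nsq v) ≤
      Ki * (M * (2 * min 1 (len h) ^ α)) * len κ ^ (2 * s) * (1 + nsq v) := by
    have : 0 ≤ Ki * M := by positivity
    gcongr
  refine (add_le_add_right h4 _).trans ?_
  have h5 : 0 ≤ 2 * Ki * M * (min 1 (len h) ^ α * nsq (v + h) * len κ ^ (2 * s)) := by positivity
  calc K * min 1 (len h) ^ α * (1 + nsq v + nsq (v + h)) * len κ ^ (2 * s) +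
        Ki * (M * (2 * min 1 (len h) ^ α)) * len κ ^ (2 * s) * (1 + nsq v) ≤
      K * min 1 (len h) ^ α * (1 + nsq v + nsq (v + h)) * len κ ^ (2 * s) +
        Ki * (M * (2 * min 1 (len h) ^ α)) * len κ ^ (2 * s) * (1 + nsq v) +
        2 * Ki * M * (min 1 (len h) ^ α * nsq (v + h) * len κ ^ (2 * s)) := by linarith
    _ = _ := by ring

end Pool.Agent.H82.HW
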