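import Pool.Agent.H82.HF.OpV
import Pool.Agent.H82.HW.Unf

/-!
# THEOREM W (MP_c15324_an), module OpU: the operator inequality, uniform in the slice

As OpV, but `S` is only close to the damping rate of `F`: `|sgE F κ v - S κ v| ≤ L δ t (1+|v|²)² |κ|^(2s)`, and all constants come
before `S`, `F`, `c_j`. The new term is `Σ_j |sgE F κ_j - S κ_j| |A_j| ≤ L (2π)^(2s) kA (Σ a_j |k_j|^(2s)) X (1+X)^(-2) (1+|v|²)²`,
`X = δ t^(1+2s)`, because `|A_j| ≤ kA a_j (1+X)^(-2)` (`dam1`).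
-/

set_option autoImplicit false

open MeasureTheory Set Filter Topology Pool.Agent.H25.Kin Pool.Agent.H48.PL Pool.Agent.H48.PD
open Pool.Agent.H82.BK Pool.Agent.H82.CM Pool.Agent.H48.PR
open Pool.Agent.H82.HF (SgH Dm Am fa GG HR Fam dam0 hr_mono hr_cont len_int tchL fa_cont)

namespace Pool.Agent.H82.HW

variable {d : ℕ} {γ s C Ca : ℝ} {b : ℝ → ℝ}

private lemma opU_wp {q q' : ℕ} (hq : q ≤ q') (v : Vec d) : Wp q' v ≤ Wp q v := by
  have h0 : 0 ≤ nsq v := sq_nonneg' v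
  unfold Wp
  exact inv_anti₀ (pow_pos (by linarith) q) (pow_le_pow_right₀ (by linarith) hq)

private lemma opU_wp1 (q : ℕ) (v : Vec d) : (1 + nsq v) * Wp (q + 1) v = Wp q v := by
  have h0 : 0 ≤ nsq v := sq_nonneg' v
  have h1 : (1 + nsq v) ≠ 0 := by linarith
  unfold Wp
  rw [pow_succ]
  field_simp

private lemma opU_const {α : ℝ} {q : ℕ} {M M' : ℝ} {a : Vec d → ℝ} (h : HR α q M a)
    (hM : M ≤ M') : HR α q M' a where
  nn := h.nn.trans hM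
  le := fun v => (h.le v).trans (mul_le_mul_of_nonneg_right hM (Wp_pos q v).le)
  hol := fun v z => by
    refine (h.hol v z).trans ?_
    have h1 : 0 ≤ min 1 (len z) ^ α :=
      Real.rpow_nonneg (le_min zero_le_one (len_nonneg z)) α
    have h2 : 0 ≤ Wp q v + Wp q (v + z) := add_nonneg (Wp_pos q v).le (Wp_pos q (v + z)).le
    exact mul_le_mul_of_nonneg_right (mul_le_mul_of_nonneg_right hM h1) h2

private lemma opU_kA (s c κ₀ : ℝ) : 0 ≤ kA s c κ₀ := by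
  unfold kA
  positivity

/-- the new term -/
private lemma opU_ext {α K c κ₀ : ℝ} {S : Vec d → Vec d → ℝ} (hs0 : 0 < s)
    (hS : SgH s α K c κ₀ S) {n : ℕ} {q : ℕ} {M : ℝ} {a : Fin n → ℝ} {cc : Fin n → Vec d → ℝ}
    {k : Fin n → Vec d} (hFam : Fam α q M a cc k) {G : Vec d → Vec d → ℝ} {L δ t : ℝ}
    (hδ : 0 < δ) (hδ1 : δ ≤ 1) (ht : 0 < t)
    (hG : ∀ κ v, |G κ v - S κ v| ≤ L * (δ * t) * (1 + nsq v) ^ 2 * len κ ^ (2 * s))
    (v : Vec d) (z : Fin n → ℝ) (hz : ∀ j, |z j| ≤ 1) :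
    |∑ j, (S ((2 * Real.pi * t) • k j) v * (Am S δ (cc j) (k j) t v * z j) -
      G ((2 * Real.pi * t) • k j) v * (Am S δ (cc j) (k j) t v * z j))| ≤
      |L| * (2 * Real.pi) ^ (2 * s) * kA s c κ₀ * (∑ j, |a j| * len (k j) ^ (2 * s)) *
        (1 + nsq v) ^ 2 := by
  have hπ := Real.pi_pos
  have hn : 0 ≤ nsq v := sq_nonneg' v
  obtain ⟨hK3, hd1⟩ := dam1 hs0 hS
  have hX : 0 ≤ δ * t ^ (1 + 2 * s) := mul_nonneg hδ.le (Real.rpow_nonneg ht.le _)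
  set X : ℝ := δ * t ^ (1 + 2 * s) with hXd
  have hXe : (δ * t) * t ^ (2 * s) = X := by
    rw [hXd, Real.rpow_add ht, Real.rpow_one]
    ring
  have hXY : X * ((1 + X) ^ 2)⁻¹ ≤ 1 := by
    rw [← div_eq_mul_inv, div_le_one (by positivity)]
    nlinarith
  refine (Finset.abs_sum_le_sum_abs _ _).trans ?_
  rw [Finset.mul_sum, Finset.sum_mul]
  refine Finset.sum_le_sum fun j _ => ?_
  have ha0 : 0 ≤ a j := by
    have h3 := (abs_nonneg _).trans (hFam.ha j 0)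
    exact nonneg_of_mul_nonneg_left h3 (Wp_pos q (0 : Vec d))
  have e1 : S ((2 * Real.pi * t) • k j) v * (Am S δ (cc j) (k j) t v * z j) -
      G ((2 * Real.pi * t) • k j) v * (Am S δ (cc j) (k j) t v * z j) =
      -((G ((2 * Real.pi * t) • k j) v - S ((2 * Real.pi * t) • k j) v) *
        (Am S δ (cc j) (k j) t v * z j)) := by ring
  rw [e1, abs_neg, abs_mul, abs_mul]
  have h1 := hG ((2 * Real.pi * t) • k j) v
  have hlen : len ((2 * Real.pi * t) • k j) ^ (2 * s) =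
      (2 * Real.pi) ^ (2 * s) * t ^ (2 * s) * len (k j) ^ (2 * s) := by
    rw [len_smul (by positivity), Real.mul_rpow (by positivity) (len_nonneg _),
      Real.mul_rpow (by positivity) ht.le]
  rw [hlen] at h1
  have hl : 0 ≤ len (k j) ^ (2 * s) := Real.rpow_nonneg (len_nonneg _) _
  have hp2 : 0 ≤ (2 * Real.pi) ^ (2 * s) := Real.rpow_nonneg (by positivity) _
  have ht2 : 0 ≤ t ^ (2 * s) := Real.rpow_nonneg ht.le _
  have h2 : |G ((2 * Real.pi * t) • k j) v - S ((2 * Real.pi * t) • k j) v| ≤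
      |L| * (δ * t) * (1 + nsq v) ^ 2 * ((2 * Real.pi) ^ (2 * s) * t ^ (2 * s) *
        len (k j) ^ (2 * s)) := by
    refine h1.trans ?_
    have h3 : L * (δ * t) * (1 + nsq v) ^ 2 ≤ |L| * (δ * t) * (1 + nsq v) ^ 2 :=
      mul_le_mul_of_nonneg_right (mul_le_mul_of_nonneg_right (le_abs_self L) (by positivity))
        (by positivity)
    exact mul_le_mul_of_nonneg_right h3 (by positivity)
  have h4 : |Am S δ (cc j) (k j) t v| ≤ |a j| * (kA s c κ₀ * ((1 + X) ^ 2)⁻¹) := by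
    have h5 := hd1 (k j) (len_int (hFam.hk j) (hFam.hk0 j)) δ hδ hδ1 t ht.le v
    have hpos : 0 < (1 + X) ^ 2 := by positivity
    have h6 : Real.exp (-Dm S δ (k j) t v) ≤ kA s c κ₀ * ((1 + X) ^ 2)⁻¹ := by
      rw [← div_eq_mul_inv, le_div_iff₀ hpos]
      exact h5
    unfold Am
    rw [abs_mul, abs_of_pos (Real.exp_pos _), abs_of_nonneg ha0]
    have h7 : |cc j v| ≤ a j := by
      refine (hFam.ha j v).trans ?_
      have h8 : Wp q v ≤ 1 := by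
        unfold Wp
        exact inv_le_one_of_one_le₀ (one_le_pow₀ (by linarith))
      calc a j * Wp q v ≤ a j * 1 := mul_le_mul_of_nonneg_left h8 ha0
        _ = a j := mul_one _
    exact mul_le_mul h7 h6 (Real.exp_pos _).le ha0
  have h9 : |Am S δ (cc j) (k j) t v| * |z j| ≤ |a j| * (kA s c κ₀ * ((1 + X) ^ 2)⁻¹) := by
    calc |Am S δ (cc j) (k j) t v| * |z j| ≤ |Am S δ (cc j) (k j) t v| * 1 :=
          mul_le_mul_of_nonneg_left (hz j) (abs_nonneg _)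
      _ = |Am S δ (cc j) (k j) t v| := mul_one _
      _ ≤ _ := h4
  refine (mul_le_mul h2 h9 (by positivity) (by positivity)).trans ?_
  have hkA := opU_kA s c κ₀
  calc |L| * (δ * t) * (1 + nsq v) ^ 2 * ((2 * Real.pi) ^ (2 * s) * t ^ (2 * s) *
        len (k j) ^ (2 * s)) * (|a j| * (kA s c κ₀ * ((1 + X) ^ 2)⁻¹)) =
      |L| * (2 * Real.pi) ^ (2 * s) * kA s c κ₀ * (|a j| * len (k j) ^ (2 * s)) *
        (1 + nsq v) ^ 2 * (((δ * t) * t ^ (2 * s)) * ((1 + X) ^ 2)⁻¹) := by ring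
    _ = |L| * (2 * Real.pi) ^ (2 * s) * kA s c κ₀ * (|a j| * len (k j) ^ (2 * s)) *
        (1 + nsq v) ^ 2 * (X * ((1 + X) ^ 2)⁻¹) := by rw [hXe]
    _ ≤ |L| * (2 * Real.pi) ^ (2 * s) * kA s c κ₀ * (|a j| * len (k j) ^ (2 * s)) *
        (1 + nsq v) ^ 2 * 1 := mul_le_mul_of_nonneg_left hXY (by positivity)
    _ = _ := by ring

theorem opU (H : Hyp d γ s b C Ca) (h0 : 0 ≤ γ) (hs : 2 * s < 1) {α : ℝ} (h1 : 2 * s < α)
    (h2 : α ≤ 1) (K c κ₀ MF : ℝ) :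
    ∃ K₅ : ℝ, 0 ≤ K₅ ∧ ∀ (n : ℕ) (M : ℝ) (a : Fin n → ℝ) (k : Fin n → Vec d) (Mf L : ℝ),
      (∀ j, k j ≠ 0) →
    ∃ K₁ : ℝ, 0 ≤ K₁ ∧ ∀ (S : Vec d → Vec d → ℝ) (F : Vec d → ℝ) (cc : Fin n → Vec d → ℝ),
      SgH s α K c κ₀ S → HR α (2 * d + 22) MF F → Fam α (2 * d + 22) M a cc k →
    ∀ δ : ℝ, 0 < δ → δ ≤ 1 → ∀ t : ℝ, 0 < t →
      (∀ κ v, |Pool.Agent.H15.HF.sgE γ b 0 F κ v - S κ v| ≤
        L * (δ * t) * (1 + nsq v) ^ 2 * len κ ^ (2 * s)) →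
    ∀ (φ : Fin n → ℝ) (x : Vec d)
      (f : Vec d → ℝ), Nice f → (∀ u, 0 ≤ f u) → (∀ u, f u ≤ Mf * Wp (d + 10) u) →
    ∀ Λ : ℝ, 0 ≤ Λ → (∀ u, |f u - fa S δ F cc k φ t x u| ≤ Λ * Wp (d + 10) u) →
    ∀ (e : ℝ) (v : Vec d), |e| = 1 → e * (f v - fa S δ F cc k φ t x v) = Λ * Wp (d + 10) v →
      e * (boltzQ γ b f v + ∑ j, S ((2 * Real.pi * t) • k j) v *
        (Am S δ (cc j) (k j) t v *
          Real.cos (2 * Real.pi * dot (k j) x + φ j - dot ((2 * Real.pi * t) • k j) v))) ≤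
        Λ * (K₅ * (∑ j, a j * len (k j) ^ (2 * s)) *
          (t ^ (2 * s) * ((1 + δ * t ^ (1 + 2 * s)) ^ 2)⁻¹) * Wp (d + 10) v) +
          K₁ * (1 + Λ) * (1 + nsq v) ^ 2 := by
  have hs0 : 0 < s := H.hs
  have hα : 0 < α := by linarith
  obtain ⟨K₃, hK₃d⟩ : ∃ K₃ : ℝ, K₃ = kA s c κ₀ := ⟨_, rfl⟩
  have hK₃ : 0 ≤ K₃ := hK₃d ▸ opU_kA s c κ₀
  obtain ⟨K₂, hK₂, htch⟩ := tchL H h0 hs h1 h2 (p := d + 10) le_rfl
  have hp : 0 ≤ (2 * Real.pi) ^ (2 * s) := Real.rpow_nonneg (by positivity) _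
  refine ⟨2 * K₂ * K₃ * (2 * Real.pi) ^ (2 * s), by positivity,
    fun n M a k Mf L hk0 => ?_⟩
  obtain ⟨M', hM'd⟩ : ∃ M' : ℝ, M' = kO s K c κ₀ M MF n (∑ j, len (k j)) := ⟨_, rfl⟩
  obtain ⟨M₁, hM₁d⟩ : ∃ M₁ : ℝ, M₁ = kM s K c κ₀ M (∑ j, len (k j)) := ⟨_, rfl⟩
  obtain ⟨Kr, hKr, hres⟩ := Pool.Agent.H15.HF.resT H h0 hs h1 h2 (q := 2 * d + 20) (by omega)
    (max MF M₁) k hk0
  obtain ⟨K₁, hK₁, htch'⟩ := htch (max M' Mf)
  obtain ⟨Kx, hKxd⟩ : ∃ Kx : ℝ, Kx = |L| * (2 * Real.pi) ^ (2 * s) * kA s c κ₀ *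
      (∑ j, |a j| * len (k j) ^ (2 * s)) := ⟨_, rfl⟩
  have hKx : 0 ≤ Kx := by
    have h3 := opU_kA s c κ₀
    have h4 : 0 ≤ ∑ j, |a j| * len (k j) ^ (2 * s) := Finset.sum_nonneg fun j _ =>
      mul_nonneg (abs_nonneg _) (Real.rpow_nonneg (len_nonneg _) _)
    rw [hKxd]
    positivity
  refine ⟨K₁ + (Kr + Kx), by positivity, ?_⟩
  intro S F cc hS hF hFam δ hδ hδ1 t ht hdiff φ x f hf hf0 hfM Λ hΛ hle e v he htouch
  have hFq : HR α (2 * d + 20) MF F := hr_mono (by omega) hF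
  obtain ⟨hM', hosc'⟩ := osc hs0 hα hS (2 * d + 20) n M MF F a cc k hF hFam
  rw [← hM'd] at hM'
  simp only [← hM'd, ← hK₃d] at hosc'
  obtain ⟨hM₁, hAm⟩ := amp_hr (q := 2 * d + 20) hs0 hα hS hFam
  rw [← hM₁d] at hM₁
  simp only [← hM₁d] at hAm
  have hlam : 0 ≤ 2 * Real.pi * t := by positivity
  have hG : ∀ u, fa S δ F cc k φ t x u = GG F (fun j => Am S δ (cc j) (k j) t)
      (fun j => (2 * Real.pi * t) • k j) (fun j => 2 * Real.pi * dot (k j) x + φ j) u :=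
    fun u => rfl
  have hcG : Continuous (fa S δ F cc k φ t x) := by
    have h3 := fa_cont hs0 hα hS hF hFam φ δ
    exact h3.comp (continuous_const.prodMk (continuous_const.prodMk continuous_id))
  have hGle : ∀ u, |fa S δ F cc k φ t x u| ≤ max M' Mf * Wp (d + 10) u := by
    intro u
    refine (hosc' δ hδ hδ1 t ht.le φ x u).1.trans ?_
    exact mul_le_mul (le_max_left _ _) (opU_wp (by omega) u) (Wp_pos _ u).le
      (hM'.trans (le_max_left _ _))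
  have hfle : ∀ u, f u ≤ max M' Mf * Wp (d + 10) u := fun u =>
    (hfM u).trans (mul_le_mul_of_nonneg_right (le_max_right _ _) (Wp_pos _ u).le)
  have ha0 : ∀ j, 0 ≤ a j := by
    intro j
    have h3 := (abs_nonneg _).trans (hFam.ha j 0)
    exact nonneg_of_mul_nonneg_left h3 (Wp_pos (2 * d + 22) (0 : Vec d))
  have hX : 0 ≤ δ * t ^ (1 + 2 * s) := mul_nonneg hδ.le (Real.rpow_nonneg ht.le _)
  set Y : ℝ := ((1 + δ * t ^ (1 + 2 * s)) ^ 2)⁻¹ with hY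
  have hY0 : 0 ≤ Y := by positivity
  have hinc : ∀ h, |fa S δ F cc k φ t x (v + h) - fa S δ F cc k φ t x v| ≤
      max M' Mf * min 1 (len h) ^ α +
        ∑ j, (2 * K₃ * a j * Y * Wp (2 * d + 20 + 2) v) *
          min 1 ((2 * Real.pi * t * len (k j)) * len h) := by
    intro h
    refine ((hosc' δ hδ hδ1 t ht.le φ x v).2.2 h).trans ?_
    have h3 : 0 ≤ min 1 (len h) ^ α :=
      Real.rpow_nonneg (le_min zero_le_one (len_nonneg h)) α
    have h4 := mul_le_mul_of_nonneg_right (le_max_left M' Mf) h3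
    linarith
  have hA0 : ∀ j, 0 ≤ 2 * K₃ * a j * Y * Wp (2 * d + 20 + 2) v := by
    intro j
    have h3 := ha0 j
    have h4 := (Wp_pos (2 * d + 20 + 2) v).le
    positivity
  have hN0 : ∀ j, 0 ≤ 2 * Real.pi * t * len (k j) := fun j =>
    mul_nonneg hlam (len_nonneg (k j))
  have hcut : ∀ ε : ℝ, 0 < ε → e * (boltzCut γ b ε f v -
      boltzCut γ b ε (fa S δ F cc k φ t x) v) ≤
      Λ * (K₁ * (1 + nsq v) ^ 2 + K₂ * (1 + nsq v) *
        ∑ j, (2 * K₃ * a j * Y * Wp (2 * d + 20 + 2) v) *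
          (2 * Real.pi * t * len (k j)) ^ (2 * s)) :=
    htch' f (fa S δ F cc k φ t x) hf.cont hcG hf0 hfle hGle Λ hΛ hle v n
      (fun j => 2 * K₃ * a j * Y * Wp (2 * d + 20 + 2) v)
      (fun j => 2 * Real.pi * t * len (k j)) hA0 hN0 hinc e he htouch
  have hFc : HR α (2 * d + 20) (max MF M₁) F := opU_const hFq (le_max_left _ _)
  have hAc : ∀ j, HR α (2 * d + 20) (max MF M₁) (Am S δ (cc j) (k j) t) := fun j =>
    opU_const (hAm δ hδ hδ1 t ht.le j) (le_max_right _ _)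
  have hev := hres (2 * Real.pi * t) (fun j => 2 * Real.pi * dot (k j) x + φ j) F
    (fun j => Am S δ (cc j) (k j) t) v hlam hFc hAc
  have hext := opU_ext hs0 hS hFam hδ hδ1 ht hdiff v (fun j => Real.cos
    (2 * Real.pi * dot (k j) x + φ j - dot ((2 * Real.pi * t) • k j) v))
    (fun j => Real.abs_cos_le_one _)
  rw [← hKxd, Finset.sum_sub_distrib] at hext
  set P : ℝ := ∑ j, S ((2 * Real.pi * t) • k j) v *
        (Am S δ (cc j) (k j) t v *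
          Real.cos (2 * Real.pi * dot (k j) x + φ j - dot ((2 * Real.pi * t) • k j) v)) with hP
  have hn : 0 ≤ nsq v := sq_nonneg' v
  have hsum : K₂ * (1 + nsq v) * ∑ j, (2 * K₃ * a j * Y * Wp (2 * d + 20 + 2) v) *
      (2 * Real.pi * t * len (k j)) ^ (2 * s) ≤
      2 * K₂ * K₃ * (2 * Real.pi) ^ (2 * s) * (∑ j, a j * len (k j) ^ (2 * s)) *
        (t ^ (2 * s) * Y) * Wp (d + 10) v := by
    have h3 : ∀ j, (2 * K₃ * a j * Y * Wp (2 * d + 20 + 2) v) *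
        (2 * Real.pi * t * len (k j)) ^ (2 * s) =
        (2 * K₃ * Y * Wp (2 * d + 20 + 2) v * (2 * Real.pi) ^ (2 * s) * t ^ (2 * s)) *
          (a j * len (k j) ^ (2 * s)) := by
      intro j
      rw [Real.mul_rpow hlam (len_nonneg _), Real.mul_rpow (by positivity) ht.le]
      ring
    rw [Finset.sum_congr rfl fun j _ => h3 j, ← Finset.mul_sum]
    have h4 : 0 ≤ ∑ j, a j * len (k j) ^ (2 * s) :=
      Finset.sum_nonneg fun j _ => mul_nonneg (ha0 j) (Real.rpow_nonneg (len_nonneg _) _)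
    have h5 : (1 + nsq v) * Wp (2 * d + 20 + 2) v ≤ Wp (d + 10) v := by
      have h6 := opU_wp1 (2 * d + 21) v
      have h7 : Wp (2 * d + 20 + 2) v = Wp (2 * d + 21 + 1) v := rfl
      rw [h7, h6]
      exact opU_wp (by omega) v
    have h8 : 0 ≤ 2 * K₂ * K₃ * (2 * Real.pi) ^ (2 * s) * (∑ j, a j * len (k j) ^ (2 * s)) *
        (t ^ (2 * s) * Y) := by
      have h9 : 0 ≤ t ^ (2 * s) := Real.rpow_nonneg ht.le _
      positivity
    calc K₂ * (1 + nsq v) * (2 * K₃ * Y * Wp (2 * d + 20 + 2) v * (2 * Real.pi) ^ (2 * s) *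
          t ^ (2 * s) * ∑ j, a j * len (k j) ^ (2 * s)) =
        2 * K₂ * K₃ * (2 * Real.pi) ^ (2 * s) * (∑ j, a j * len (k j) ^ (2 * s)) *
        (t ^ (2 * s) * Y) * ((1 + nsq v) * Wp (2 * d + 20 + 2) v) := by ring
      _ ≤ _ := mul_le_mul_of_nonneg_left h5 h8
  have hlim : Tendsto (fun ε => e * (boltzCut γ b ε f v + P)) (𝓝[>] 0)
      (𝓝 (e * (boltzQ γ b f v + P))) :=
    ((boltz_tendsto H hf v).add_const P).const_mul e
  refine le_of_tendsto hlim ?_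
  filter_upwards [hev, self_mem_nhdsWithin] with ε h3 h4
  have h5 := hcut ε h4
  have h6 : |boltzCut γ b ε (fa S δ F cc k φ t x) v + P| ≤ (Kr + Kx) * (1 + nsq v) ^ 2 := by
    obtain ⟨Z, hZ⟩ : ∃ Z : ℝ, Z = ∑ l, Pool.Agent.H15.HF.sgE γ b 0 F ((2 * Real.pi * t) • k l) v *
        (Am S δ (cc l) (k l) t v * Real.cos (2 * Real.pi * dot (k l) x + φ l -
          dot ((2 * Real.pi * t) • k l) v)) := ⟨_, rfl⟩
    have h60 : |boltzCut γ b ε (fa S δ F cc k φ t x) v + Z| ≤ Kr * (1 + nsq v) ^ 2 := by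
      rw [hZ]
      exact h3
    rw [← hZ] at hext
    have h61 := abs_le.1 h60
    have h62 := abs_le.1 hext
    rw [add_mul]
    refine abs_le.2 ⟨?_, ?_⟩
    · linarith [h61.1, h62.1]
    · linarith [h61.2, h62.2]
  have h7 : e * (boltzCut γ b ε (fa S δ F cc k φ t x) v + P) ≤ (Kr + Kx) * (1 + nsq v) ^ 2 := by
    refine (le_abs_self _).trans ?_
    rw [abs_mul, he, one_mul]
    exact h6
  have h8 : e * (boltzCut γ b ε f v + P) =
      e * (boltzCut γ b ε f v - boltzCut γ b ε (fa S δ F cc k φ t x) v) +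
        e * (boltzCut γ b ε (fa S δ F cc k φ t x) v + P) := by ring
  rw [h8]
  have h9 := mul_le_mul_of_nonneg_left hsum hΛ
  have h10 : 0 ≤ (1 + nsq v) ^ 2 := by positivity
  have h11 : 0 ≤ K₁ * (1 + nsq v) ^ 2 := mul_nonneg hK₁ h10
  have h12 : 0 ≤ Λ * ((Kr + Kx) * (1 + nsq v) ^ 2) :=
    mul_nonneg hΛ (mul_nonneg (by positivity) h10)
  nlinarith

end Pool.Agent.H82.HW
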